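import Pool.Agent.D0H22.Danz.Opt

set_option autoImplicit false

/-!
# Bases of optimal lines
-/

namespace Pool.Agent.D0H22.Danz

open scoped RealInnerProductSpace Topology
open Real Module

variable {E : Type*} [NormedAddCommGroup E] [InnerProductSpace ℝ E]

/-- The line `(p, u)` is the only line at distance at most `r` from the points of `D` that orders
them in the same way. -/
def Rigid (D : Finset E) (r : ℝ) (p u : E) : Prop :=
  ∀ q u' : E, ‖u'‖ = 1 → (∀ c ∈ D, ‖perp u' (c - q)‖ ≤ r) →
    (∀ c ∈ D, ∀ c' ∈ D, c ≠ c' → 0 < ⟪u, c - c'⟫ * ⟪u', c - c'⟫) → u' = u ∧ perp u (q - p) = 0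

/-- Carathéodory for stresses. -/
lemma exists_small_stress [FiniteDimensional ℝ E] {d : ℕ} (hd : 1 ≤ d) (hE : finrank ℝ E = d)
    {A : Set E} {p u : E} (hu : ‖u‖ = 1)
    (h : (0 : E × E) ∈ convexHull ℝ
      ((fun c => (perp u (c - p), ⟪u, c - p⟫ • perp u (c - p))) '' A)) :
    ∃ D : Finset E, (∀ c ∈ D, c ∈ A) ∧ D.Nonempty ∧ D.card ≤ 2 * d - 1 ∧
      ∃ w : E → ℝ, (∀ c ∈ D, 0 < w c) ∧ ∑ c ∈ D, w c • perp u (c - p) = 0 ∧
        ∑ c ∈ D, (w c * ⟪u, c - p⟫) • perp u (c - p) = 0 := by
  classical
  obtain ⟨ι, hι, z, w, hz, hind, hw, hw1, hsum⟩ := eq_pos_convex_span_of_mem_convexHull h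
  have hz' : ∀ i, ∃ c ∈ A, (perp u (c - p), ⟪u, c - p⟫ • perp u (c - p)) = z i := by
    intro i
    obtain ⟨c, hc, hcz⟩ := hz ⟨i, rfl⟩
    exact ⟨c, hc, hcz⟩
  choose c hcA hcz using hz'
  have hcinj : Function.Injective c := by
    intro i j hij
    apply hind.injective
    rw [← hcz i, ← hcz j, hij]
  have hne : Nonempty ι := by
    by_contra hemp
    rw [not_nonempty_iff] at hemp
    simp at hw1
  -- the dimension bound
  have hcard : Fintype.card ι ≤ 2 * d - 1 := by
    let W : Submodule ℝ E := (Submodule.span ℝ {u})ᗮ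
    have hW : finrank ℝ W = d - 1 := by
      have h1 := Submodule.finrank_add_finrank_orthogonal (Submodule.span ℝ {u})
      have h2 : finrank ℝ (Submodule.span ℝ {u}) = 1 := by
        apply finrank_span_singleton
        intro h0
        rw [h0, norm_zero] at hu
        norm_num at hu
      rw [h2, hE] at h1
      have h3 : 1 + finrank ℝ W = d := h1
      omega
    have hmemW : ∀ x : E, perp u x ∈ W := by
      intro x
      rw [Submodule.mem_orthogonal_singleton_iff_inner_right]
      exact inner_perp hu x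
    let φ : (W × W) →ₗ[ℝ] (E × E) := LinearMap.prodMap W.subtype W.subtype
    have hrange : vectorSpan ℝ (Set.range z) ≤ LinearMap.range φ := by
      rw [vectorSpan_def, Submodule.span_le]
      rintro _ ⟨a, ⟨i, rfl⟩, b, ⟨j, rfl⟩, rfl⟩
      have hmem : ∀ i, z i ∈ LinearMap.range φ := by
        intro i
        refine ⟨(⟨perp u (c i - p), hmemW _⟩,
          ⟨⟪u, c i - p⟫ • perp u (c i - p), W.smul_mem _ (hmemW _)⟩), ?_⟩
        rw [← hcz i]
        rfl
      exact (LinearMap.range φ).sub_mem (hmem i) (hmem j)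
    have h3 := hind.card_le_finrank_succ
    have h4 : finrank ℝ (vectorSpan ℝ (Set.range z)) ≤ finrank ℝ (LinearMap.range φ) :=
      Submodule.finrank_mono hrange
    have h5 : finrank ℝ (LinearMap.range φ) ≤ finrank ℝ (W × W) := LinearMap.finrank_range_le φ
    rw [finrank_prod, hW] at h5
    omega
  let w' : E → ℝ := Function.extend c w 0
  have hw' : ∀ i, w' (c i) = w i := fun i => hcinj.extend_apply w 0 i
  refine ⟨Finset.univ.image c, ?_, ?_, ?_, w', ?_, ?_, ?_⟩
  · intro x hx
    obtain ⟨i, _, rfl⟩ := Finset.mem_image.1 hx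
    exact hcA i
  · exact Finset.Nonempty.image Finset.univ_nonempty c
  · rw [Finset.card_image_of_injective _ hcinj, Finset.card_univ]
    exact hcard
  · intro x hx
    obtain ⟨i, _, rfl⟩ := Finset.mem_image.1 hx
    rw [hw']; exact hw i
  · rw [Finset.sum_image (fun i _ j _ hij => hcinj hij)]
    have h6 := congrArg Prod.fst hsum
    rw [Prod.fst_sum] at h6
    rw [Prod.fst_zero] at h6
    rw [← h6]
    refine Finset.sum_congr rfl fun i _ => ?_
    rw [hw', Prod.smul_fst, ← hcz i]
  · rw [Finset.sum_image (fun i _ j _ hij => hcinj hij)]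
    have h6 := congrArg Prod.snd hsum
    rw [Prod.snd_sum] at h6
    rw [Prod.snd_zero] at h6
    rw [← h6]
    refine Finset.sum_congr rfl fun i _ => ?_
    rw [hw', Prod.smul_snd, ← hcz i, smul_smul]

/-- Every optimal line is determined by at most `2 d - 1` of the balls, among the lines that order
these balls in the same way. -/
theorem exists_basis [FiniteDimensional ℝ E] {d : ℕ} (hd : 2 ≤ d) (hE : finrank ℝ E = d)
    {R : E → E → Prop} {F : Finset E} {r : ℝ} {p u : E}
    (h0 : 0 ≤ r) (h1 : r ≤ 1) (hF : Fe R F r p u) (hcard : 2 ≤ F.card)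
    (hdis : ∀ a ∈ F, ∀ b ∈ F, a ≠ b → 2 < ‖a - b‖)
    (hopt : ∀ r' p' u', Fe R F r' p' u' → r ≤ r') :
    ∃ D ⊆ F, D.card ≤ 2 * d - 1 ∧ Rigid D r p u := by
  classical
  rcases eq_or_lt_of_le h0 with hr | hr
  · -- radius zero
    subst hr
    obtain ⟨a, ha, b, hb, hab⟩ := Finset.one_lt_card.1 (by omega : 1 < F.card)
    refine ⟨{a, b}, ?_, ?_, ?_⟩
    · intro x hx
      rw [Finset.mem_insert, Finset.mem_singleton] at hx
      rcases hx with rfl | rfl
      · exact ha
      · exact hb
    · have := Finset.card_le_two (a := a) (b := b)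
      omega
    · intro q u' hu' hq hord
      have hperp0 : ∀ {u x : E}, ‖perp u x‖ ≤ 0 → x = ⟪u, x⟫ • u := by
        intro u x h
        have := norm_le_zero_iff.1 h
        unfold perp at this
        exact sub_eq_zero.1 this
      have e1 : perp u (a - b) = 0 := by
        have g1 := norm_le_zero_iff.1 (hF.near a ha)
        have g2 := norm_le_zero_iff.1 (hF.near b hb)
        have : a - b = (a - p) - (b - p) := by abel
        rw [this, perp_sub, g1, g2, sub_zero]
      have e2 : perp u' (a - b) = 0 := by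
        have g1 := norm_le_zero_iff.1 (hq a (by simp))
        have g2 := norm_le_zero_iff.1 (hq b (by simp))
        have : a - b = (a - q) - (b - q) := by abel
        rw [this, perp_sub, g1, g2, sub_zero]
      have f1 : a - b = ⟪u, a - b⟫ • u := by
        unfold perp at e1; exact sub_eq_zero.1 e1
      have f2 : a - b = ⟪u', a - b⟫ • u' := by
        unfold perp at e2; exact sub_eq_zero.1 e2
      have g := hord a (by simp) b (by simp) hab
      have habn : (0 : ℝ) < ‖a - b‖ := norm_pos_iff.2 (sub_ne_zero.2 hab)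
      have n1 : |⟪u, a - b⟫| = ‖a - b‖ := by
        conv_rhs => rw [f1]
        rw [norm_smul, hF.unit, Real.norm_eq_abs, mul_one]
      have n2 : |⟪u', a - b⟫| = ‖a - b‖ := by
        conv_rhs => rw [f2]
        rw [norm_smul, hu', Real.norm_eq_abs, mul_one]
      have hs : ⟪u', a - b⟫ = ⟪u, a - b⟫ := by
        rcases abs_eq_abs.1 (n2.trans n1.symm) with h | h
        · exact h
        · rw [h] at g
          nlinarith [sq_nonneg ⟪u, a - b⟫]
      have hune : ⟪u, a - b⟫ ≠ 0 := by
        intro h; rw [h, abs_zero] at n1; linarith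
      have huu : u' = u := by
        have : ⟪u, a - b⟫ • u' = ⟪u, a - b⟫ • u := by
          rw [← f1]
          conv_rhs => rw [f2, hs]
        exact smul_right_injective E hune this
      refine ⟨huu, ?_⟩
      subst huu
      have g1 := norm_le_zero_iff.1 (hF.near a ha)
      have g2 := norm_le_zero_iff.1 (hq a (by simp))
      have : q - p = (a - p) - (a - q) := by abel
      rw [this, perp_sub, g1, g2, sub_zero]
  · have hst := exists_stress hr h1 hF hdis hopt
    obtain ⟨D, hDA, hDne, hDc, w, hw, hw1, hw2⟩ :=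
      exists_small_stress (by omega) hE hF.unit hst
    refine ⟨D, fun c hc => (hDA c hc).1, hDc, ?_⟩
    intro q u' hu' hq hord
    refine key hr hF.unit hDne ?_ (fun c hc => (hDA c hc).2) hw hw1 hw2 hu' hq hord
    intro c hc c' hc' hcc'
    have := hdis c (hDA c hc).1 c' (hDA c' hc').1 hcc'
    linarith

end Pool.Agent.D0H22.Danz
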