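import Mathlib

set_option autoImplicit false

/-!
# The combinatorial part
-/

namespace Pool.Agent.D0H22.Danz

/-- Any `z` in `S \ {i, j}` that orders `i` before `j`. -/
def Yset {α : Type*} [DecidableEq α] (S : Finset α) (lt : α → α → α → Prop) [∀ z i j, Decidable (lt z i j)]
    (i j : α) : Finset α := S.filter fun z => z ≠ i ∧ z ≠ j ∧ lt z i j

section
variable {α : Type*} [DecidableEq α] {S : Finset α} {lt : α → α → α → Prop}
  [∀ z i j, Decidable (lt z i j)]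

lemma mem_Yset {i j z : α} : z ∈ Yset S lt i j ↔ z ∈ S ∧ z ≠ i ∧ z ≠ j ∧ lt z i j := by
  unfold Yset; rw [Finset.mem_filter]

lemma card_Yset_add (hI : ∀ z i, ¬ lt z i i) (hA : ∀ z i j, lt z i j → ¬ lt z j i)
    (hT : ∀ z ∈ S, ∀ i ∈ S, ∀ j ∈ S, z ≠ i → z ≠ j → i ≠ j → lt z i j ∨ lt z j i)
    {i j : α} (hi : i ∈ S) (hj : j ∈ S) (hij : i ≠ j) :
    (Yset S lt i j).card + (Yset S lt j i).card = S.card - 2 := by
  have hdisj : Disjoint (Yset S lt i j) (Yset S lt j i) := by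
    rw [Finset.disjoint_left]
    intro z hz hz'
    exact hA z i j (mem_Yset.1 hz).2.2.2 (mem_Yset.1 hz').2.2.2
  rw [← Finset.card_union_of_disjoint hdisj]
  have hU : Yset S lt i j ∪ Yset S lt j i = (S.erase i).erase j := by
    ext z
    simp only [Finset.mem_union, mem_Yset, Finset.mem_erase]
    constructor
    · rintro (h | h)
      · exact ⟨h.2.2.1, h.2.1, h.1⟩
      · exact ⟨h.2.1, h.2.2.1, h.1⟩
    · rintro ⟨h1, h2, h3⟩
      rcases hT z h3 i hi j hj h2 h1 hij with h | h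
      · exact Or.inl ⟨h3, h2, h1, h⟩
      · exact Or.inr ⟨h3, h1, h2, h⟩
  rw [hU, Finset.card_erase_of_mem (Finset.mem_erase.2 ⟨hij.symm, hj⟩),
    Finset.card_erase_of_mem hi]
  omega

end

/-- Finding an element of `S` outside a small set. -/
lemma exists_outside {α : Type*} [DecidableEq α] {S T : Finset α} (h : T.card < S.card) :
    ∃ z ∈ S, z ∉ T := by
  by_contra hcon
  push Not at hcon
  exact absurd (Finset.card_le_card hcon) (not_le.2 h)

theorem comb {α : Type*} [DecidableEq α] (S : Finset α) (d : ℕ) (hd : 2 ≤ d)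
    (hn : 4 * d ≤ S.card) (lt : α → α → α → Prop)
    (hI : ∀ z i, ¬ lt z i i) (hA : ∀ z i j, lt z i j → ¬ lt z j i)
    (hT : ∀ z ∈ S, ∀ i ∈ S, ∀ j ∈ S, z ≠ i → z ≠ j → i ≠ j → lt z i j ∨ lt z j i)
    (gp : ∀ y ∈ S, ∀ z ∈ S, y ≠ z → ∀ i ∈ S, ∀ j ∈ S, ∀ k ∈ S, ∀ l ∈ S,
      y ≠ i → y ≠ j → y ≠ k → y ≠ l → z ≠ i → z ≠ j → z ≠ k → z ≠ l →
      lt z i j → lt y j i → lt z k l → lt y l k → i = k ∧ j = l)
    (r : α → ℝ) (B : α → Finset α) (hB : ∀ x ∈ S, B x ⊆ S) (hBx : ∀ x ∈ S, x ∉ B x)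
    (hBc : ∀ x ∈ S, (B x).card ≤ 2 * d - 1)
    (f1 : ∀ x ∈ S, ∀ y ∈ S, y ≠ x → y ∉ B x → r y ≤ r x →
      ∃ i ∈ B x, ∃ j ∈ B x, lt x i j ∧ lt y j i)
    (f2 : ∀ R : α → α → Prop, (∀ i ∈ S, ∀ j ∈ S, i ≠ j → R i j ∨ R j i) →
      ∃ C ⊆ S, C.card ≤ 2 * d + 1 ∧ ∀ z ∈ S, z ∉ C → ∃ i ∈ C, ∃ j ∈ C, R i j ∧ lt z j i) :
    False := by
  classical
  by_cases hcase : ∃ i ∈ S, ∃ j ∈ S, i ≠ j ∧ 3 ≤ (Yset S lt i j).card ∧ 3 ≤ (Yset S lt j i).card
  · -- Case I
    obtain ⟨i0, hi0, j0, hj0, hij0, hp3, hm3⟩ := hcase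
    -- agreement
    have agree0 : ∀ z ∈ Yset S lt i0 j0, ∀ z' ∈ Yset S lt j0 i0, ∀ k ∈ S, ∀ l ∈ S,
        z ≠ k → z ≠ l → z' ≠ k → z' ≠ l → ¬ (k = i0 ∧ l = j0) → ¬ (k = j0 ∧ l = i0) →
        (lt z k l ↔ lt z' k l) := by
      intro z hz z' hz' k hk l hl h1 h2 h3 h4 h5 h6
      rw [mem_Yset] at hz hz'
      by_cases hkl : k = l
      · subst hkl; exact ⟨fun h => absurd h (hI _ _), fun h => absurd h (hI _ _)⟩
      have hzz' : z' ≠ z := by
        rintro rfl; exact hA _ _ _ hz.2.2.2 hz'.2.2.2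
      constructor
      · intro h
        by_contra hcon
        have h7 : lt z' l k := (hT z' hz'.1 k hk l hl h3 h4 hkl).resolve_left hcon
        have h8 := gp z' hz'.1 z hz.1 hzz' i0 hi0 j0 hj0 k hk l hl hz'.2.2.1 hz'.2.1 h3 h4
          hz.2.1 hz.2.2.1 h1 h2 hz.2.2.2 hz'.2.2.2 h h7
        exact h5 ⟨h8.1.symm, h8.2.symm⟩
      · intro h
        by_contra hcon
        have h7 : lt z l k := (hT z hz.1 k hk l hl h1 h2 hkl).resolve_left hcon
        have h8 := gp z' hz'.1 z hz.1 hzz' i0 hi0 j0 hj0 l hl k hk hz'.2.2.1 hz'.2.1 h4 h3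
          hz.2.1 hz.2.2.1 h2 h1 hz.2.2.2 hz'.2.2.2 h7 h
        exact h6 ⟨h8.2.symm, h8.1.symm⟩
    have agree : ∀ z ∈ S, ∀ z' ∈ S, ∀ k ∈ S, ∀ l ∈ S, z ≠ i0 → z ≠ j0 → z' ≠ i0 → z' ≠ j0 →
        z ≠ k → z ≠ l → z' ≠ k → z' ≠ l → ¬ (k = i0 ∧ l = j0) → ¬ (k = j0 ∧ l = i0) →
        (lt z k l ↔ lt z' k l) := by
      intro z hz z' hz' k hk l hl a1 a2 a3 a4 h1 h2 h3 h4 h5 h6
      rcases hT z hz i0 hi0 j0 hj0 a1 a2 hij0 with hzp | hzm
      · rcases hT z' hz' i0 hi0 j0 hj0 a3 a4 hij0 with hzp' | hzm'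
        · -- both in Yp: use w in Ym
          obtain ⟨w, hw, hw'⟩ : ∃ w ∈ Yset S lt j0 i0, w ∉ ({k, l} : Finset α) :=
            exists_outside (lt_of_le_of_lt Finset.card_le_two hm3)
          simp only [Finset.mem_insert, Finset.mem_singleton, not_or] at hw'
          rw [agree0 z (mem_Yset.2 ⟨hz, a1, a2, hzp⟩) w hw k hk l hl h1 h2 hw'.1 hw'.2 h5 h6,
            ← agree0 z' (mem_Yset.2 ⟨hz', a3, a4, hzp'⟩) w hw k hk l hl h3 h4 hw'.1 hw'.2 h5 h6]
        · exact agree0 z (mem_Yset.2 ⟨hz, a1, a2, hzp⟩) z' (mem_Yset.2 ⟨hz', a4, a3, hzm'⟩)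
            k hk l hl h1 h2 h3 h4 h5 h6
      · rcases hT z' hz' i0 hi0 j0 hj0 a3 a4 hij0 with hzp' | hzm'
        · exact (agree0 z' (mem_Yset.2 ⟨hz', a3, a4, hzp'⟩) z (mem_Yset.2 ⟨hz, a2, a1, hzm⟩)
            k hk l hl h3 h4 h1 h2 h5 h6).symm
        · obtain ⟨w, hw, hw'⟩ : ∃ w ∈ Yset S lt i0 j0, w ∉ ({k, l} : Finset α) :=
            exists_outside (lt_of_le_of_lt Finset.card_le_two hp3)
          simp only [Finset.mem_insert, Finset.mem_singleton, not_or] at hw'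
          rw [← agree0 w hw z (mem_Yset.2 ⟨hz, a2, a1, hzm⟩) k hk l hl hw'.1 hw'.2 h1 h2 h5 h6,
            ← agree0 w hw z' (mem_Yset.2 ⟨hz', a4, a3, hzm'⟩) k hk l hl hw'.1 hw'.2 h3 h4 h5 h6]
    -- bound for one class
    have bound : ∀ i1 ∈ S, ∀ j1 ∈ S, ((i1 = i0 ∧ j1 = j0) ∨ (i1 = j0 ∧ j1 = i0)) →
        (Yset S lt i1 j1).card ≤ 2 * d - 1 := by
      intro i1 hi1 j1 hj1 h1
      have hij1 : i1 ≠ j1 := by
        rcases h1 with ⟨rfl, rfl⟩ | ⟨rfl, rfl⟩
        · exact hij0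
        · exact hij0.symm
      -- the relation
      let R : α → α → Prop := fun k l =>
        (k = i1 ∧ l = j1) ∨ (¬ (k = j1 ∧ l = i1) ∧ ¬ (k = i1 ∧ l = j1) ∧
          ∃ z ∈ S, z ≠ i1 ∧ z ≠ j1 ∧ z ≠ k ∧ z ≠ l ∧ lt z k l)
      have hR : ∀ i ∈ S, ∀ j ∈ S, i ≠ j → R i j ∨ R j i := by
        intro k hk l hl hkl
        by_cases g1 : k = i1 ∧ l = j1
        · exact Or.inl (Or.inl g1)
        by_cases g2 : l = i1 ∧ k = j1
        · exact Or.inr (Or.inl g2)
        obtain ⟨z, hz, hz'⟩ : ∃ z ∈ S, z ∉ ({i1, j1, k, l} : Finset α) :=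
          exists_outside (lt_of_le_of_lt Finset.card_le_four (by omega))
        simp only [Finset.mem_insert, Finset.mem_singleton, not_or] at hz'
        rcases hT z hz k hk l hl hz'.2.2.1 hz'.2.2.2 hkl with h | h
        · exact Or.inl (Or.inr ⟨fun g => g2 ⟨g.2, g.1⟩, g1, z, hz, hz'.1, hz'.2.1, hz'.2.2.1,
            hz'.2.2.2, h⟩)
        · exact Or.inr (Or.inr ⟨fun g => g1 ⟨g.2, g.1⟩, g2, z, hz, hz'.1, hz'.2.1, hz'.2.2.2,
            hz'.2.2.1, h⟩)
      obtain ⟨C, hC, hCc, hCz⟩ := f2 R hR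
      have ag : ∀ z ∈ S, ∀ z' ∈ S, ∀ k ∈ S, ∀ l ∈ S, z ≠ i1 → z ≠ j1 → z' ≠ i1 → z' ≠ j1 →
          z ≠ k → z ≠ l → z' ≠ k → z' ≠ l → ¬ (k = i1 ∧ l = j1) → ¬ (k = j1 ∧ l = i1) →
          (lt z k l ↔ lt z' k l) := by
        intro z hz z' hz' k hk l hl a1 a2 a3 a4 b1 b2 b3 b4 b5 b6
        rcases h1 with ⟨rfl, rfl⟩ | ⟨rfl, rfl⟩
        · exact agree z hz z' hz' k hk l hl a1 a2 a3 a4 b1 b2 b3 b4 b5 b6
        · exact agree z hz z' hz' k hk l hl a2 a1 a4 a3 b1 b2 b3 b4 b6 b5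
      -- any z outside C and not in {i1, j1} satisfies: i1, j1 in C and lt z j1 i1
      have hz1 : ∀ z ∈ S, z ∉ C → z ≠ i1 → z ≠ j1 → i1 ∈ C ∧ j1 ∈ C ∧ lt z j1 i1 := by
        intro z hz hzC a1 a2
        obtain ⟨i, hi, j, hj, hRij, hlt⟩ := hCz z hz hzC
        have b1 : z ≠ i := fun h => hzC (h ▸ hi)
        have b2 : z ≠ j := fun h => hzC (h ▸ hj)
        rcases hRij with ⟨rfl, rfl⟩ | ⟨g1, g2, z', hz', c1, c2, c3, c4, c5⟩
        · exact ⟨hi, hj, hlt⟩
        · exfalso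
          have := (ag z' hz' z hz i (hC hi) j (hC hj) c1 c2 a1 a2 c3 c4 b1 b2 g2 g1).1 c5
          exact hA _ _ _ this hlt
      have haC : i1 ∈ C ∧ j1 ∈ C := by
        obtain ⟨z, hz, hz'⟩ : ∃ z ∈ S, z ∉ C ∪ ({i1, j1} : Finset α) := by
          apply exists_outside
          have g1 := Finset.card_union_le C ({i1, j1} : Finset α)
          have g2 : ({i1, j1} : Finset α).card ≤ 2 := Finset.card_le_two
          omega
        simp only [Finset.mem_union, Finset.mem_insert, Finset.mem_singleton, not_or] at hz'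
        obtain ⟨g1, g2, _⟩ := hz1 z hz hz'.1 hz'.2.1 hz'.2.2
        exact ⟨g1, g2⟩
      have hYC : Yset S lt i1 j1 ⊆ (C.erase i1).erase j1 := by
        intro z hz
        rw [mem_Yset] at hz
        rw [Finset.mem_erase, Finset.mem_erase]
        refine ⟨hz.2.2.1, hz.2.1, ?_⟩
        by_contra hzC
        exact hA _ _ _ hz.2.2.2 (hz1 z hz.1 hzC hz.2.1 hz.2.2.1).2.2
      have h3 := Finset.card_le_card hYC
      rw [Finset.card_erase_of_mem (Finset.mem_erase.2 ⟨hij1.symm, haC.2⟩),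
        Finset.card_erase_of_mem haC.1] at h3
      omega
    -- the maximal element
    have hSa : (S \ {i0, j0}).Nonempty := by
      rw [← Finset.card_pos]
      have g1 := Finset.le_card_sdiff ({i0, j0} : Finset α) S
      have g2 : ({i0, j0} : Finset α).card ≤ 2 := Finset.card_le_two
      omega
    obtain ⟨x, hx, hmax⟩ := Finset.exists_max_image (S \ {i0, j0}) r hSa
    simp only [Finset.mem_sdiff, Finset.mem_insert, Finset.mem_singleton, not_or] at hx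
    obtain ⟨hxS, hxi, hxj⟩ := hx
    -- any y outside
    have hy1 : ∀ y ∈ S, y ≠ i0 → y ≠ j0 → y ≠ x → y ∉ B x →
        i0 ∈ B x ∧ j0 ∈ B x ∧ ((lt x i0 j0 ∧ lt y j0 i0) ∨ (lt x j0 i0 ∧ lt y i0 j0)) := by
      intro y hy a1 a2 a3 a4
      have hry : r y ≤ r x := hmax y (by simp [hy, a1, a2])
      obtain ⟨i, hi, j, hj, h1, h2⟩ := f1 x hxS y hy a3 a4 hry
      have hiS := hB x hxS hi
      have hjS := hB x hxS hj
      have b1 : x ≠ i := fun h => hBx x hxS (h ▸ hi)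
      have b2 : x ≠ j := fun h => hBx x hxS (h ▸ hj)
      have b3 : y ≠ i := fun h => a4 (h ▸ hi)
      have b4 : y ≠ j := fun h => a4 (h ▸ hj)
      by_cases g1 : i = i0 ∧ j = j0
      · obtain ⟨rfl, rfl⟩ := g1
        exact ⟨hi, hj, Or.inl ⟨h1, h2⟩⟩
      by_cases g2 : i = j0 ∧ j = i0
      · obtain ⟨rfl, rfl⟩ := g2
        exact ⟨hj, hi, Or.inr ⟨h1, h2⟩⟩
      exfalso
      have := (agree x hxS y hy i hiS j hjS hxi hxj a1 a2 b1 b2 b3 b4 g1 g2).1 h1
      exact hA _ _ _ this h2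
    have haB : i0 ∈ B x ∧ j0 ∈ B x := by
      obtain ⟨y, hy, hy'⟩ : ∃ y ∈ S, y ∉ B x ∪ ({i0, j0, x} : Finset α) := by
        apply exists_outside
        have g1 := Finset.card_union_le (B x) ({i0, j0, x} : Finset α)
        have g2 : ({i0, j0, x} : Finset α).card ≤ 3 := Finset.card_le_three
        have g3 := hBc x hxS
        omega
      simp only [Finset.mem_union, Finset.mem_insert, Finset.mem_singleton, not_or] at hy'
      obtain ⟨g1, g2, _⟩ := hy1 y hy hy'.2.1 hy'.2.2.1 hy'.2.2.2 hy'.1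
      exact ⟨g1, g2⟩
    have hcard : 2 * d ≤ (S \ insert x (B x)).card := by
      have g1 := Finset.le_card_sdiff (insert x (B x)) S
      have g2 := Finset.card_insert_le x (B x)
      have g3 := hBc x hxS
      omega
    rcases hT x hxS i0 hi0 j0 hj0 hxi hxj hij0 with hxp | hxm
    · have hsub : S \ insert x (B x) ⊆ Yset S lt j0 i0 := by
        intro y hy
        simp only [Finset.mem_sdiff, Finset.mem_insert, not_or] at hy
        have a1 : y ≠ i0 := fun h => hy.2.2 (h ▸ haB.1)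
        have a2 : y ≠ j0 := fun h => hy.2.2 (h ▸ haB.2)
        rcases (hy1 y hy.1 a1 a2 hy.2.1 hy.2.2).2.2 with g | g
        · exact mem_Yset.2 ⟨hy.1, a2, a1, g.2⟩
        · exact absurd g.1 (hA _ _ _ hxp)
      have := Finset.card_le_card hsub
      have := bound j0 hj0 i0 hi0 (Or.inr ⟨rfl, rfl⟩)
      omega
    · have hsub : S \ insert x (B x) ⊆ Yset S lt i0 j0 := by
        intro y hy
        simp only [Finset.mem_sdiff, Finset.mem_insert, not_or] at hy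
        have a1 : y ≠ i0 := fun h => hy.2.2 (h ▸ haB.1)
        have a2 : y ≠ j0 := fun h => hy.2.2 (h ▸ haB.2)
        rcases (hy1 y hy.1 a1 a2 hy.2.1 hy.2.2).2.2 with g | g
        · exact absurd g.1 (hA _ _ _ hxm)
        · exact mem_Yset.2 ⟨hy.1, a1, a2, g.2⟩
      have := Finset.card_le_card hsub
      have := bound i0 hi0 j0 hj0 (Or.inl ⟨rfl, rfl⟩)
      omega
  · -- Case II
    push Not at hcase
    let M : α → α → Prop := fun i j => 3 ≤ (Yset S lt i j).card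
    have hMtot : ∀ i ∈ S, ∀ j ∈ S, i ≠ j → M i j ∨ M j i := by
      intro i hi j hj hij
      have := card_Yset_add hI hA hT hi hj hij
      by_contra hcon
      push Not at hcon
      have h1 : (Yset S lt i j).card < 3 := not_le.1 hcon.1
      have h2 : (Yset S lt j i).card < 3 := not_le.1 hcon.2
      omega
    have hMasym : ∀ i ∈ S, ∀ j ∈ S, i ≠ j → M i j → (Yset S lt j i).card < 3 := fun i hi j hj hij h =>
      hcase i hi j hj hij h
    -- at most one deviating pair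
    have hdev : ∀ z ∈ S, ∀ i ∈ S, ∀ j ∈ S, ∀ k ∈ S, ∀ l ∈ S, z ≠ i → z ≠ j → z ≠ k → z ≠ l →
        M i j → lt z j i → M k l → lt z l k → i = k ∧ j = l := by
      intro z hz i hi j hj k hk l hl a1 a2 a3 a4 m1 l1 m2 l2
      have hij : i ≠ j := by rintro rfl; exact hI _ _ l1
      have hkl : k ≠ l := by rintro rfl; exact hI _ _ l2
      have c1 := hMasym i hi j hj hij m1
      have c2 := hMasym k hk l hl hkl m2
      have zin1 : z ∈ Yset S lt j i := mem_Yset.2 ⟨hz, a2, a1, l1⟩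
      have zin2 : z ∈ Yset S lt l k := mem_Yset.2 ⟨hz, a4, a3, l2⟩
      obtain ⟨z', hz', hz''⟩ : ∃ z' ∈ S, z' ∉ (Yset S lt j i ∪ (Yset S lt l k).erase z) ∪
          ({i, j, k, l} : Finset α) := by
        apply exists_outside
        have g1 := Finset.card_union_le (Yset S lt j i ∪ (Yset S lt l k).erase z)
          ({i, j, k, l} : Finset α)
        have g2 : ({i, j, k, l} : Finset α).card ≤ 4 := Finset.card_le_four
        have g3 := Finset.card_union_le (Yset S lt j i) ((Yset S lt l k).erase z)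
        have g4 := Finset.card_erase_of_mem zin2
        omega
      simp only [Finset.mem_union, Finset.mem_insert, Finset.mem_singleton, not_or,
        Finset.mem_erase, not_and] at hz''
      obtain ⟨⟨b1, b2⟩, b3, b4, b5, b6⟩ := hz''
      have hzz' : z ≠ z' := by rintro rfl; exact b1 zin1
      have b2' := b2 hzz'.symm
      have p1 : lt z' i j := by
        rcases hT z' hz' i hi j hj b3 b4 hij with h | h
        · exact h
        · exact absurd (mem_Yset.2 ⟨hz', b4, b3, h⟩) b1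
      have p2 : lt z' k l := by
        rcases hT z' hz' k hk l hl b5 b6 hkl with h | h
        · exact h
        · exact absurd (mem_Yset.2 ⟨hz', b6, b5, h⟩) b2'
      exact gp z hz z' hz' hzz' i hi j hj k hk l hl a1 a2 a3 a4 b3 b4 b5 b6 p1 l1 p2 l2
    obtain ⟨C, hC, hCc, hCz⟩ := f2 M hMtot
    -- pick a first z
    obtain ⟨z0, hz0, hz0C⟩ : ∃ z ∈ S, z ∉ C := exists_outside (by omega)
    obtain ⟨i, hi, j, hj, hM, hlt⟩ := hCz z0 hz0 hz0C
    have hij : i ≠ j := by rintro rfl; exact hI _ _ hlt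
    have hall : ∀ z ∈ S, z ∉ C → lt z j i := by
      intro z hz hzC
      by_cases hzz : z = z0
      · rw [hzz]; exact hlt
      have ne : ∀ c ∈ C, z ≠ c := fun c hc h => hzC (h ▸ hc)
      have ne0 : ∀ c ∈ C, z0 ≠ c := fun c hc h => hz0C (h ▸ hc)
      by_contra hcon
      have h1 : lt z i j := (hT z hz i (hC hi) j (hC hj) (ne i hi) (ne j hj) hij).resolve_right hcon
      obtain ⟨k, hk, l, hl, hM2, hlt2⟩ := hCz z hz hzC
      have hkl : k ≠ l := by rintro rfl; exact hI _ _ hlt2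
      -- z0 does not deviate at (k,l)
      have h2 : lt z0 k l := by
        rcases hT z0 hz0 k (hC hk) l (hC hl) (ne0 k hk) (ne0 l hl) hkl with h | h
        · exact h
        · exfalso
          have := hdev z0 hz0 i (hC hi) j (hC hj) k (hC hk) l (hC hl) (ne0 i hi) (ne0 j hj)
            (ne0 k hk) (ne0 l hl) hM hlt hM2 h
          obtain ⟨rfl, rfl⟩ := this
          exact hA _ _ _ h1 hlt2
      have h3 := gp z0 hz0 z hz (Ne.symm hzz) i (hC hi) j (hC hj) l (hC hl) k (hC hk)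
        (ne0 i hi) (ne0 j hj) (ne0 l hl) (ne0 k hk) (ne i hi) (ne j hj) (ne l hl) (ne k hk)
        h1 hlt hlt2 h2
      obtain ⟨rfl, rfl⟩ := h3
      have h4 := hMasym i (hC hi) j (hC hj) hij hM
      exact absurd hM2 (not_le.2 h4)
    have hsub : S \ C ⊆ Yset S lt j i := by
      intro z hz
      rw [Finset.mem_sdiff] at hz
      exact mem_Yset.2 ⟨hz.1, fun h => hz.2 (h ▸ hj), fun h => hz.2 (h ▸ hi), hall z hz.1 hz.2⟩
    have h1 := Finset.card_le_card hsub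
    have h2 := hMasym i (hC hi) j (hC hj) hij hM
    have h3 := Finset.le_card_sdiff C S
    omega

end Pool.Agent.D0H22.Danz
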