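import Pool.Agent.D0H22.Danz.Opt

set_option autoImplicit false

/-!
# Geometry of two lines hitting the same disjoint unit balls
-/

namespace Pool.Agent.D0H22.Danz

open scoped RealInnerProductSpace Topology
open Real Module

variable {E : Type*} [NormedAddCommGroup E] [InnerProductSpace ℝ E]

/-- Three disjoint unit balls hit by a line have extent more than `ρ` along the line. -/
def Triple (E : Type*) [NormedAddCommGroup E] [InnerProductSpace ℝ E] (ρ : ℝ) : Prop :=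
  ∀ p u a b c : E, ‖u‖ = 1 → ‖perp u (a - p)‖ ≤ 1 → ‖perp u (b - p)‖ ≤ 1 →
    ‖perp u (c - p)‖ ≤ 1 → 2 < ‖a - b‖ → 2 < ‖b - c‖ → 2 < ‖a - c‖ →
    ⟪u, a⟫ < ⟪u, b⟫ → ⟪u, b⟫ < ⟪u, c⟫ → ρ < ⟪u, c⟫ - ⟪u, a⟫

lemma norm_split {u : E} (hu : ‖u‖ = 1) (p a b : E) :
    ‖a - b‖ ^ 2 = (⟪u, b⟫ - ⟪u, a⟫) ^ 2 + ‖perp u (a - p) - perp u (b - p)‖ ^ 2 := by
  have h1 := norm_perp_sq hu (a - b)
  have h2 : perp u (a - p) - perp u (b - p) = perp u (a - b) := by
    rw [← perp_sub]; congr 1; abel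
  rw [h2, h1, inner_sub_right]
  ring

lemma sum_close {u p a b : E} (hu : ‖u‖ = 1) (ha : ‖perp u (a - p)‖ ≤ 1)
    (hb : ‖perp u (b - p)‖ ≤ 1) (hab : 2 < ‖a - b‖) :
    ‖perp u (a - p) + perp u (b - p)‖ < |⟪u, b⟫ - ⟪u, a⟫| := by
  have h1 := norm_split hu p a b
  have h2 : (2 : ℝ) ^ 2 < ‖a - b‖ ^ 2 := pow_lt_pow_left₀ hab (by norm_num) two_ne_zero
  have h3 := parallelogram_law_with_norm ℝ (perp u (a - p)) (perp u (b - p))
  have h4 : ‖perp u (a - p)‖ ^ 2 ≤ 1 := pow_le_one₀ (norm_nonneg _) ha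
  have h5 : ‖perp u (b - p)‖ ^ 2 ≤ 1 := pow_le_one₀ (norm_nonneg _) hb
  have h6 : ‖perp u (a - p) + perp u (b - p)‖ ^ 2 < |⟪u, b⟫ - ⟪u, a⟫| ^ 2 := by
    rw [sq_abs]
    nlinarith
  exact lt_of_pow_lt_pow_left₀ 2 (abs_nonneg _) h6

lemma sq_diff {u p a b : E} (hu : ‖u‖ = 1) (ha : ‖perp u (a - p)‖ ≤ 1)
    (hb : ‖perp u (b - p)‖ ≤ 1) (hab : 2 < ‖a - b‖) :
    |‖perp u (b - p)‖ ^ 2 - ‖perp u (a - p)‖ ^ 2| ≤ (⟪u, b⟫ - ⟪u, a⟫) ^ 2 / 2 := by
  have h1 := norm_split hu p a b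
  have h2 : (2 : ℝ) ^ 2 < ‖a - b‖ ^ 2 := pow_lt_pow_left₀ hab (by norm_num) two_ne_zero
  have h3 := parallelogram_law_with_norm ℝ (perp u (a - p)) (perp u (b - p))
  have h4 : ‖perp u (a - p)‖ ^ 2 ≤ 1 := pow_le_one₀ (norm_nonneg _) ha
  have h5 : ‖perp u (b - p)‖ ^ 2 ≤ 1 := pow_le_one₀ (norm_nonneg _) hb
  have h7 : 0 ≤ ‖perp u (a - p) + perp u (b - p)‖ * ‖perp u (a - p) + perp u (b - p)‖ := by
    positivity
  rw [abs_le]
  constructor <;> nlinarith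

theorem triple_two : Triple E (√2) := by
  intro p u a b c hu ha hb hc hab hbc hac h1 h2
  have g1 := sum_close hu ha hb hab
  have g2 := sum_close hu hb hc hbc
  rw [abs_of_pos (by linarith)] at g1 g2
  have g3 := norm_split hu p a c
  have g4 : (2 : ℝ) ^ 2 < ‖a - c‖ ^ 2 := pow_lt_pow_left₀ hac (by norm_num) two_ne_zero
  have g5 : ‖perp u (a - p) - perp u (c - p)‖ < ⟪u, c⟫ - ⟪u, a⟫ := by
    have e : perp u (a - p) - perp u (c - p) =
      (perp u (a - p) + perp u (b - p)) - (perp u (b - p) + perp u (c - p)) := by abel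
    rw [e]
    refine lt_of_le_of_lt (norm_sub_le _ _) ?_
    linarith
  have g6 : ‖perp u (a - p) - perp u (c - p)‖ ^ 2 < (⟪u, c⟫ - ⟪u, a⟫) ^ 2 :=
    pow_lt_pow_left₀ g5 (norm_nonneg _) two_ne_zero
  rw [Real.sqrt_lt' (by linarith)]
  nlinarith

theorem triple_three [FiniteDimensional ℝ E] (hE : finrank ℝ E = 2) : Triple E (√3) := by
  intro p u a b c hu ha hb hc hab hbc hac h1 h2
  -- the orthogonal complement is a line
  have hW : finrank ℝ ((Submodule.span ℝ {u})ᗮ : Submodule ℝ E) = 1 := by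
    have h3 := Submodule.finrank_add_finrank_orthogonal (Submodule.span ℝ {u})
    have h4 : finrank ℝ (Submodule.span ℝ {u}) = 1 := by
      apply finrank_span_singleton
      intro h0
      rw [h0, norm_zero] at hu
      norm_num at hu
    rw [h4, hE] at h3
    omega
  obtain ⟨v, hv0, hv⟩ := finrank_eq_one_iff'.1 hW
  have hrep : ∀ x : E, ∃ s : ℝ, perp u x = s • (v : E) := by
    intro x
    have hx : perp u x ∈ (Submodule.span ℝ {u})ᗮ := by
      rw [Submodule.mem_orthogonal_singleton_iff_inner_right]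
      exact inner_perp hu x
    obtain ⟨s, hs⟩ := hv ⟨perp u x, hx⟩
    refine ⟨s, ?_⟩
    have := congrArg (fun w : ((Submodule.span ℝ {u})ᗮ : Submodule ℝ E) => (w : E)) hs
    simpa using this.symm
  -- same side points
  have hsame : ∀ x y : E, ∀ s t : ℝ, perp u (x - p) = s • (v : E) → perp u (y - p) = t • (v : E) →
      0 ≤ s * t → ‖perp u (x - p)‖ ≤ 1 → ‖perp u (y - p)‖ ≤ 1 → 2 < ‖x - y‖ →
      ⟪u, x⟫ < ⟪u, y⟫ → √3 < ⟪u, y⟫ - ⟪u, x⟫ := by
    intro x y s t hs ht hst hx hy hxy hlt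
    have g1 := norm_split hu p x y
    have g2 : (2 : ℝ) ^ 2 < ‖x - y‖ ^ 2 := pow_lt_pow_left₀ hxy (by norm_num) two_ne_zero
    have g3 : ‖perp u (x - p) - perp u (y - p)‖ ^ 2 ≤ 1 := by
      have e1 : ‖perp u (x - p)‖ = |s| * ‖(v : E)‖ := by rw [hs, norm_smul, Real.norm_eq_abs]
      have e2 : ‖perp u (y - p)‖ = |t| * ‖(v : E)‖ := by rw [ht, norm_smul, Real.norm_eq_abs]
      have e3 : ‖perp u (x - p) - perp u (y - p)‖ = |(|s| * ‖(v : E)‖ - |t| * ‖(v : E)‖)| := by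
        rw [hs, ht, ← sub_smul, norm_smul, Real.norm_eq_abs, ← sub_mul, abs_mul, abs_norm]
        congr 1
        rcases mul_nonneg_iff.1 hst with h | h
        · rw [abs_of_nonneg h.1, abs_of_nonneg h.2]
        · rw [abs_of_nonpos h.1, abs_of_nonpos h.2, ← abs_neg]
          congr 1; ring
      rw [e3, sq_abs]
      rw [e1] at hx
      rw [e2] at hy
      have e4 : 0 ≤ |s| * ‖(v : E)‖ := by positivity
      have e5 : 0 ≤ |t| * ‖(v : E)‖ := by positivity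
      nlinarith
    rw [Real.sqrt_lt' (by linarith)]
    nlinarith
  obtain ⟨s, hs⟩ := hrep (a - p)
  obtain ⟨t, ht⟩ := hrep (b - p)
  obtain ⟨w, hw⟩ := hrep (c - p)
  by_cases g1 : 0 ≤ s * t
  · have := hsame a b s t hs ht g1 ha hb hab h1
    linarith
  by_cases g2 : 0 ≤ t * w
  · have := hsame b c t w ht hw g2 hb hc hbc h2
    linarith
  have g3 : 0 ≤ s * w := by
    push Not at g1 g2
    have g4 : 0 < (s * t) * (t * w) := mul_pos_of_neg_of_neg g1 g2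
    have g5 : (s * t) * (t * w) = t ^ 2 * (s * w) := by ring
    rw [g5] at g4
    have g6 : 0 ≤ t ^ 2 := sq_nonneg t
    by_contra g7
    push Not at g7
    nlinarith
  exact hsame a c s w hs hw g3 ha hc hac (by linarith)

/-- Many disjoint balls have large extent. -/
lemma range_lemma {ρ : ℝ} (hT : Triple E ρ) {p u : E} (hu : ‖u‖ = 1) (m : ℕ) :
    ∀ G : Finset E, (∀ c ∈ G, ‖perp u (c - p)‖ ≤ 1) →
      (∀ a ∈ G, ∀ b ∈ G, a ≠ b → 2 < ‖a - b‖) → 2 * m + 3 ≤ G.card →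
      ∃ a ∈ G, ∃ b ∈ G, (m + 1 : ℝ) * ρ < ⟪u, b⟫ - ⟪u, a⟫ := by
  classical
  -- the three topmost elements
  have top : ∀ G : Finset E, (∀ c ∈ G, ‖perp u (c - p)‖ ≤ 1) →
      (∀ a ∈ G, ∀ b ∈ G, a ≠ b → 2 < ‖a - b‖) → 3 ≤ G.card →
      ∃ b ∈ G, ∃ b' ∈ G.erase b, ∃ c ∈ (G.erase b).erase b',
        (∀ x ∈ (G.erase b).erase b', ⟪u, x⟫ ≤ ⟪u, c⟫) ∧ ρ < ⟪u, b⟫ - ⟪u, c⟫ := by
    intro G hG hdis hcard
    obtain ⟨b, hb, hbm⟩ := Finset.exists_max_image G (fun x => ⟪u, x⟫)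
      (Finset.card_pos.1 (by omega))
    have c1 := Finset.card_erase_of_mem hb
    obtain ⟨b', hb', hbm'⟩ := Finset.exists_max_image (G.erase b) (fun x => ⟪u, x⟫)
      (Finset.card_pos.1 (by omega))
    have c2 := Finset.card_erase_of_mem hb'
    obtain ⟨c, hc, hcm⟩ := Finset.exists_max_image ((G.erase b).erase b') (fun x => ⟪u, x⟫)
      (Finset.card_pos.1 (by omega))
    refine ⟨b, hb, b', hb', c, hc, hcm, ?_⟩
    rw [Finset.mem_erase] at hb'
    rw [Finset.mem_erase, Finset.mem_erase] at hc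
    have s1 : ⟪u, b'⟫ < ⟪u, b⟫ := by
      refine lt_of_le_of_ne (hbm b' hb'.2) ?_
      have := hit_sep hu le_rfl (hG b' hb'.2) (hG b hb) (hdis b' hb'.2 b hb hb'.1)
      rw [inner_sub_right] at this
      intro h; exact this (by rw [h, sub_self])
    have s2 : ⟪u, c⟫ < ⟪u, b'⟫ := by
      refine lt_of_le_of_ne (hbm' c (Finset.mem_erase.2 ⟨hc.2.1, hc.2.2⟩)) ?_
      have := hit_sep hu le_rfl (hG c hc.2.2) (hG b' hb'.2) (hdis c hc.2.2 b' hb'.2 hc.1)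
      rw [inner_sub_right] at this
      intro h; exact this (by rw [h, sub_self])
    exact hT p u c b' b hu (hG c hc.2.2) (hG b' hb'.2) (hG b hb)
      (hdis c hc.2.2 b' hb'.2 hc.1) (hdis b' hb'.2 b hb hb'.1) (hdis c hc.2.2 b hb hc.2.1) s2 s1
  induction m with
  | zero =>
    intro G hG hdis hcard
    obtain ⟨b, hb, b', hb', c, hc, _, h⟩ := top G hG hdis (by omega)
    refine ⟨c, Finset.mem_of_mem_erase (Finset.mem_of_mem_erase hc), b, hb, ?_⟩
    simpa using h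
  | succ m ih =>
    intro G hG hdis hcard
    obtain ⟨b, hb, b', hb', c, hc, hcm, h⟩ := top G hG hdis (by omega)
    have hsub : ∀ x ∈ (G.erase b).erase b', x ∈ G := fun x hx =>
      Finset.mem_of_mem_erase (Finset.mem_of_mem_erase hx)
    obtain ⟨a, ha, a', ha', h'⟩ := ih ((G.erase b).erase b') (fun x hx => hG x (hsub x hx))
      (fun x hx y hy => hdis x (hsub x hx) y (hsub y hy)) (by
        rw [Finset.card_erase_of_mem hb', Finset.card_erase_of_mem hb]; omega)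
    refine ⟨a, hsub a ha, b, hb, ?_⟩
    have := hcm a' ha'
    push_cast
    linarith

/-- Comparison of the extents of a pair along two lines. -/
lemma two_lines {u u' p a b : E} (hu : ‖u‖ = 1) (hu' : ‖u'‖ = 1)
    (ha : ‖perp u (a - p)‖ ≤ 1) (hb : ‖perp u (b - p)‖ ≤ 1) :
    ((⟪u', b⟫ - ⟪u', a⟫) - ⟪u, u'⟫ * (⟪u, b⟫ - ⟪u, a⟫)) ^ 2 ≤ 4 * (1 - ⟪u, u'⟫ ^ 2) := by
  have e1 : (⟪u', b⟫ - ⟪u', a⟫) - ⟪u, u'⟫ * (⟪u, b⟫ - ⟪u, a⟫) =
      ⟪perp u u', perp u (b - a)⟫ := by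
    have g1 : ⟪perp u u', perp u (b - a)⟫ = ⟪u', perp u (b - a)⟫ := by
      conv_lhs => rw [show perp u u' = u' - ⟪u, u'⟫ • u from rfl]
      rw [inner_sub_left, real_inner_smul_left, inner_perp hu, mul_zero, sub_zero]
    rw [g1]
    unfold perp
    rw [inner_sub_right u', real_inner_smul_right, inner_sub_right, inner_sub_right,
      real_inner_comm u u']
    ring
  have e2 : ‖perp u (b - a)‖ ≤ 2 := by
    have : perp u (b - a) = perp u (b - p) - perp u (a - p) := by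
      rw [← perp_sub]; congr 1; abel
    rw [this]
    refine le_trans (norm_sub_le _ _) ?_
    linarith
  have e3 : ‖perp u u'‖ ^ 2 = 1 - ⟪u, u'⟫ ^ 2 := by rw [norm_perp_sq hu, hu']; norm_num
  rw [e1]
  have e4 := abs_real_inner_le_norm (perp u u') (perp u (b - a))
  have e5 : ⟪perp u u', perp u (b - a)⟫ ^ 2 ≤ (‖perp u u'‖ * ‖perp u (b - a)‖) ^ 2 := by
    rw [← sq_abs]; exact pow_le_pow_left₀ (abs_nonneg _) e4 2
  rw [mul_pow, e3] at e5
  have e6 : ‖perp u (b - a)‖ ^ 2 ≤ 2 ^ 2 := pow_le_pow_left₀ (norm_nonneg _) e2 2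
  have e7 : 0 ≤ 1 - ⟪u, u'⟫ ^ 2 := by rw [← e3]; positivity
  nlinarith

end Pool.Agent.D0H22.Danz
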