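import Pool.Agent.D0H22.Danz.GP

set_option autoImplicit false

/-!
# At most one pair is swapped
-/

namespace Pool.Agent.D0H22.Danz

open scoped RealInnerProductSpace Topology
open Real Module

variable {E : Type*} [NormedAddCommGroup E] [InnerProductSpace ℝ E]

lemma inner_abs_le_one {u u' : E} (hu : ‖u‖ = 1) (hu' : ‖u'‖ = 1) : |⟪u, u'⟫| ≤ 1 := by
  have := abs_real_inner_le_norm u u'
  rwa [hu, hu', mul_one] at this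

/-- The absolute value form of `two_lines`. -/
lemma two_lines_abs {u u' p a b : E} (hu : ‖u‖ = 1) (hu' : ‖u'‖ = 1)
    (ha : ‖perp u (a - p)‖ ≤ 1) (hb : ‖perp u (b - p)‖ ≤ 1) {sn : ℝ} (hsn : 0 ≤ sn)
    (hsn2 : sn ^ 2 = 1 - ⟪u, u'⟫ ^ 2) :
    |(⟪u', b⟫ - ⟪u', a⟫) - ⟪u, u'⟫ * (⟪u, b⟫ - ⟪u, a⟫)| ≤ 2 * sn := by
  have h := two_lines (p := p) hu hu' ha hb
  rw [← hsn2] at h
  refine abs_le_of_sq_le_sq ?_ (by positivity)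
  linarith

lemma kappa_bound {u u' p p' a b : E} {R κ0 : ℝ} (hu : ‖u‖ = 1) (hu' : ‖u'‖ = 1)
    (ha : ‖perp u (a - p)‖ ≤ 1) (hb : ‖perp u (b - p)‖ ≤ 1)
    (ha' : ‖perp u' (a - p')‖ ≤ 1) (hb' : ‖perp u' (b - p')‖ ≤ 1)
    (hR : 0 ≤ R) (hα : R < ⟪u, b⟫ - ⟪u, a⟫) (hκ0 : κ0 < 1)
    (hκR : 4 * (1 + κ0) ≤ R ^ 2 * (1 - κ0)) : κ0 < |⟪u, u'⟫| := by
  by_contra hcon
  push Not at hcon
  obtain ⟨κ, hκ⟩ : ∃ κ, κ = ⟪u, u'⟫ := ⟨_, rfl⟩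
  obtain ⟨α, hαd⟩ : ∃ α, α = ⟪u, b⟫ - ⟪u, a⟫ := ⟨_, rfl⟩
  obtain ⟨β, hβd⟩ : ∃ β, β = ⟪u', b⟫ - ⟪u', a⟫ := ⟨_, rfl⟩
  have hs : 0 < 1 - κ ^ 2 := by
    have h1 : |κ| < 1 := by rw [hκ]; linarith
    have h2 : κ ^ 2 < 1 := by rw [← sq_abs]; nlinarith [abs_nonneg κ]
    linarith
  obtain ⟨sn, hsn⟩ : ∃ sn, sn = √(1 - κ ^ 2) := ⟨_, rfl⟩
  have hsn0 : 0 < sn := by rw [hsn]; exact Real.sqrt_pos.2 hs
  have hsn2 : sn ^ 2 = 1 - κ ^ 2 := by rw [hsn]; exact Real.sq_sqrt hs.le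
  have h1 := two_lines_abs (p := p) hu hu' ha hb hsn0.le (by rw [← hκ]; exact hsn2)
  have h2 := two_lines_abs (p := p') hu' hu ha' hb' hsn0.le
    (by rw [real_inner_comm, ← hκ]; exact hsn2)
  rw [real_inner_comm u u'] at h2
  rw [← hκ, ← hαd, ← hβd] at h1 h2
  rw [← hκ] at hcon
  rw [← hαd] at hα
  -- the combination
  have h3 : α * sn ^ 2 ≤ 2 * sn * (1 + |κ|) := by
    have e : α * sn ^ 2 = (α - κ * β) + κ * (β - κ * α) := by rw [hsn2]; ring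
    rw [e]
    have g1 : α - κ * β ≤ 2 * sn := le_trans (le_abs_self _) h2
    have g2 : κ * (β - κ * α) ≤ |κ| * (2 * sn) := by
      refine le_trans (le_abs_self _) ?_
      rw [abs_mul]
      exact mul_le_mul_of_nonneg_left h1 (abs_nonneg _)
    linarith
  have h4 : α * sn ≤ 2 * (1 + |κ|) := by
    have : sn * (α * sn) ≤ sn * (2 * (1 + |κ|)) := by linarith
    exact le_of_mul_le_mul_left this hsn0
  have hα0 : 0 < α := by linarith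
  have h5 : (α * sn) ^ 2 ≤ (2 * (1 + |κ|)) ^ 2 := pow_le_pow_left₀ (by positivity) h4 2
  rw [mul_pow, hsn2] at h5
  have h6 : (1 + |κ|) * (α ^ 2 * (1 - |κ|)) ≤ (1 + |κ|) * (4 * (1 + |κ|)) := by
    have : 1 - κ ^ 2 = (1 + |κ|) * (1 - |κ|) := by rw [← sq_abs κ]; ring
    rw [this] at h5
    linarith
  have h7 : α ^ 2 * (1 - |κ|) ≤ 4 * (1 + |κ|) :=
    le_of_mul_le_mul_left h6 (by positivity)
  have h8 : R ^ 2 < α ^ 2 := pow_lt_pow_left₀ hα hR two_ne_zero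
  have h9 : 0 < 1 - |κ| := by linarith
  have h10 : R ^ 2 * (1 - |κ|) < α ^ 2 * (1 - |κ|) := mul_lt_mul_of_pos_right h8 h9
  have h11 : R ^ 2 * (1 - κ0) ≤ R ^ 2 * (1 - |κ|) :=
    mul_le_mul_of_nonneg_left (by linarith) (sq_nonneg _)
  linarith

/-- One line hitting four balls: the interaction of two close pairs. -/
lemma line_bound {u p A B C D : E} (hu : ‖u‖ = 1)
    (hA : ‖perp u (A - p)‖ ≤ 1) (hB : ‖perp u (B - p)‖ ≤ 1)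
    (hC : ‖perp u (C - p)‖ ≤ 1) (hD : ‖perp u (D - p)‖ ≤ 1)
    (hAB : 2 < ‖A - B‖) (hCD : 2 < ‖C - D‖) :
    |⟪perp u ((C + D) - (A + B)), perp u (B - A)⟫| ≤
      2 * |⟪u, D⟫ - ⟪u, C⟫| + (⟪u, B⟫ - ⟪u, A⟫) ^ 2 / 2 := by
  have e1 : perp u ((C + D) - (A + B)) =
      (perp u (C - p) + perp u (D - p)) - (perp u (A - p) + perp u (B - p)) := by
    rw [← perp_add, ← perp_add, ← perp_sub]; congr 1; abel
  have e2 : perp u (B - A) = perp u (B - p) - perp u (A - p) := by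
    rw [← perp_sub]; congr 1; abel
  rw [e1, e2, inner_sub_left]
  have g1 := sum_close hu hC hD hCD
  have g2 : ‖perp u (B - p) - perp u (A - p)‖ ≤ 2 := by
    refine le_trans (norm_sub_le _ _) ?_
    linarith
  have g3 : |⟪perp u (C - p) + perp u (D - p), perp u (B - p) - perp u (A - p)⟫| ≤
      2 * |⟪u, D⟫ - ⟪u, C⟫| := by
    refine le_trans (abs_real_inner_le_norm _ _) ?_
    have := mul_le_mul g1.le g2 (norm_nonneg _) (abs_nonneg _)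
    linarith
  have g4 := sq_diff hu hA hB hAB
  have g5 : ⟪perp u (A - p) + perp u (B - p), perp u (B - p) - perp u (A - p)⟫ =
      ‖perp u (B - p)‖ ^ 2 - ‖perp u (A - p)‖ ^ 2 := by
    rw [inner_sub_right, inner_add_left, inner_add_left, real_inner_self_eq_norm_sq,
      real_inner_self_eq_norm_sq, real_inner_comm (perp u (B - p)) (perp u (A - p))]
    ring
  rw [g5]
  refine le_trans (abs_sub _ _) ?_
  linarith

lemma inner_decomp {u : E} (hu : ‖u‖ = 1) (x y : E) :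
    ⟪x, y⟫ = ⟪u, x⟫ * ⟪u, y⟫ + ⟪perp u x, perp u y⟫ := by
  have g1 : ⟪perp u x, perp u y⟫ = ⟪x, perp u y⟫ := by
    conv_lhs => rw [show perp u x = x - ⟪u, x⟫ • u from rfl]
    rw [inner_sub_left, real_inner_smul_left, inner_perp hu, mul_zero, sub_zero]
  rw [g1]
  unfold perp
  rw [inner_sub_right, real_inner_smul_right, real_inner_comm u x]
  ring

/-- The numerical conditions used for a pair of lines. -/
structure Close (ρ : ℝ) (u u' : E) (sn : ℝ) : Prop where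
  hρ : 1 < ρ
  hu : ‖u‖ = 1
  hu' : ‖u'‖ = 1
  hκ : 0 < ⟪u, u'⟫
  sn0 : 0 ≤ sn
  sn2 : sn ^ 2 = 1 - ⟪u, u'⟫ ^ 2
  lt : 2 * sn ≤ ρ
  le : sn ≤ (ρ - 1) * (1 + ⟪u, u'⟫)

/-- Swapped pairs are short on both lines. -/
lemma swap_short {ρ sn : ℝ} {u u' p p' a b : E} (hc : Close ρ u u' sn)
    (ha : ‖perp u (a - p)‖ ≤ 1) (hb : ‖perp u (b - p)‖ ≤ 1)
    (ha' : ‖perp u' (a - p')‖ ≤ 1) (hb' : ‖perp u' (b - p')‖ ≤ 1)
    (h1 : ⟪u, a⟫ < ⟪u, b⟫) (h2 : ⟪u', b⟫ < ⟪u', a⟫) :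
    ⟪u, b⟫ - ⟪u, a⟫ < ρ ∧ ⟪u', a⟫ - ⟪u', b⟫ < ρ ∧
      (⟪u, b⟫ - ⟪u, a⟫) + (⟪u', a⟫ - ⟪u', b⟫) ≤ 4 * (ρ - 1) := by
  have g1 := two_lines_abs (p := p) hc.hu hc.hu' ha hb hc.sn0 hc.sn2
  have g2 := two_lines_abs (p := p') hc.hu' hc.hu ha' hb' hc.sn0
    (by rw [real_inner_comm]; exact hc.sn2)
  rw [real_inner_comm u u'] at g2
  have hκ := hc.hκ
  have hlt := hc.lt
  have hle := hc.le
  have g3 := (abs_le.1 g1).1
  have g4 := (abs_le.1 g2).2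
  generalize ⟪u, u'⟫ = κ at *
  have hα : 0 < ⟪u, b⟫ - ⟪u, a⟫ := by linarith
  have hβ : 0 < ⟪u', a⟫ - ⟪u', b⟫ := by linarith
  have k1 := mul_pos hκ hα
  have k2 := mul_pos hκ hβ
  refine ⟨by nlinarith, by nlinarith, ?_⟩
  have k3 : (1 + κ) * ((⟪u, b⟫ - ⟪u, a⟫) + (⟪u', a⟫ - ⟪u', b⟫)) ≤ (1 + κ) * (4 * (ρ - 1)) := by
    nlinarith
  exact le_of_mul_le_mul_left k3 (by linarith)

/-- Swapped pairs are adjacent (first line). -/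
lemma swap_adj {ρ sn : ℝ} (hT : Triple E ρ) {u u' p p' a b c : E} (hcl : Close ρ u u' sn)
    (ha : ‖perp u (a - p)‖ ≤ 1) (hb : ‖perp u (b - p)‖ ≤ 1) (hc : ‖perp u (c - p)‖ ≤ 1)
    (ha' : ‖perp u' (a - p')‖ ≤ 1) (hb' : ‖perp u' (b - p')‖ ≤ 1)
    (hab : 2 < ‖a - b‖) (hac : 2 < ‖a - c‖) (hcb : 2 < ‖c - b‖)
    (h1 : ⟪u, a⟫ < ⟪u, b⟫) (h2 : ⟪u', b⟫ < ⟪u', a⟫) :
    ¬ (⟪u, a⟫ < ⟪u, c⟫ ∧ ⟪u, c⟫ < ⟪u, b⟫) := by
  rintro ⟨h3, h4⟩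
  have k1 := (swap_short hcl ha hb ha' hb' h1 h2).1
  have k2 := hT p u a c b hcl.hu ha hc hb hac hcb hab h3 h4
  linarith

/-- Swapped pairs are adjacent (second line). -/
lemma swap_adj' {ρ sn : ℝ} (hT : Triple E ρ) {u u' p p' a b c : E} (hcl : Close ρ u u' sn)
    (ha : ‖perp u (a - p)‖ ≤ 1) (hb : ‖perp u (b - p)‖ ≤ 1) (hc' : ‖perp u' (c - p')‖ ≤ 1)
    (ha' : ‖perp u' (a - p')‖ ≤ 1) (hb' : ‖perp u' (b - p')‖ ≤ 1)
    (hab : 2 < ‖a - b‖) (hac : 2 < ‖a - c‖) (hcb : 2 < ‖c - b‖)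
    (h1 : ⟪u, a⟫ < ⟪u, b⟫) (h2 : ⟪u', b⟫ < ⟪u', a⟫) :
    ¬ (⟪u', b⟫ < ⟪u', c⟫ ∧ ⟪u', c⟫ < ⟪u', a⟫) := by
  rintro ⟨h3, h4⟩
  have k1 := (swap_short hcl ha hb ha' hb' h1 h2).2.1
  have k2 := hT p' u' b c a hcl.hu' hb' hc' ha' (by rw [norm_sub_rev]; exact hcb)
    (by rw [norm_sub_rev]; exact hac) (by rw [norm_sub_rev]; exact hab) h3 h4
  linarith

lemma num1 {ρ a b c d a' b' c' d' Q1 P1 P1' : ℝ}
    (d1 : Q1 = (c + d - (a + b)) * (b - a) + P1)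
    (d1' : Q1 = (c' + d' - (a' + b')) * (b' - a') + P1')
    (c1 : -(2 * (d - c) + (b - a) ^ 2 / 2) ≤ P1)
    (c1' : P1' ≤ 2 * -(d' - c') + (b' - a') ^ 2 / 2)
    (H1 : 2 * ρ * (b - a) ≤ (c + d - (a + b)) * (b - a))
    (H1' : 2 * ρ * (a' - b') ≤ (c' + d' - (a' + b')) * (a' - b')) :
    2 * ρ * ((b - a) + (a' - b')) ≤
      2 * ((d - c) + (c' - d')) + ((b - a) ^ 2 + (b' - a') ^ 2) / 2 := by
  have e : (c' + d' - (a' + b')) * (a' - b') = -((c' + d' - (a' + b')) * (b' - a')) := by ring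
  linarith

lemma num2 {ρ a b c d a' b' c' d' Q2 P2 P2' : ℝ}
    (d2 : Q2 = (a + b - (c + d)) * (d - c) + P2)
    (d2' : Q2 = (a' + b' - (c' + d')) * (d' - c') + P2')
    (c2 : P2 ≤ 2 * (b - a) + (d - c) ^ 2 / 2)
    (c2' : -(2 * -(b' - a') + (d' - c') ^ 2 / 2) ≤ P2')
    (H2 : 2 * ρ * (d - c) ≤ (c + d - (a + b)) * (d - c))
    (H2' : 2 * ρ * (c' - d') ≤ (c' + d' - (a' + b')) * (c' - d')) :
    2 * ρ * ((d - c) + (c' - d')) ≤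
      2 * ((b - a) + (a' - b')) + ((d - c) ^ 2 + (d' - c') ^ 2) / 2 := by
  have e1 : (c' + d' - (a' + b')) * (c' - d') = (a' + b' - (c' + d')) * (d' - c') := by ring
  have e2 : (c + d - (a + b)) * (d - c) = -((a + b - (c + d)) * (d - c)) := by ring
  linarith

lemma num3 {ρ s1 s2 α1 β1 α2 β2 : ℝ} (hs1 : s1 = α1 + β1) (hs2 : s2 = α2 + β2)
    (hα1 : 0 < α1) (hβ1 : 0 < β1) (hα2 : 0 < α2) (hβ2 : 0 < β2)
    (S1 : 2 * ρ * s1 ≤ 2 * s2 + (α1 ^ 2 + (-β1) ^ 2) / 2)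
    (S2 : 2 * ρ * s2 ≤ 2 * s1 + (α2 ^ 2 + (-β2) ^ 2) / 2)
    (x1 : s1 ≤ 4 * (ρ - 1)) (x2 : s2 ≤ 4 * (ρ - 1)) : False := by
  have q1 : α1 ^ 2 + (-β1) ^ 2 < s1 ^ 2 := by
    rw [hs1]
    have : 0 < α1 * β1 := mul_pos hα1 hβ1
    nlinarith
  have q2 : α2 ^ 2 + (-β2) ^ 2 < s2 ^ 2 := by
    rw [hs2]
    have : 0 < α2 * β2 := mul_pos hα2 hβ2
    nlinarith
  have r1 : s1 ^ 2 ≤ 4 * (ρ - 1) * s1 := by
    rw [sq]
    exact mul_le_mul_of_nonneg_right x1 (by rw [hs1]; linarith)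
  have r2 : s2 ^ 2 ≤ 4 * (ρ - 1) * s2 := by
    rw [sq]
    exact mul_le_mul_of_nonneg_right x2 (by rw [hs2]; linarith)
  linarith

/-- There is no disjoint double swap. -/
lemma no_double {ρ sn : ℝ} (hT : Triple E ρ) {u u' p p' A B C D : E} (hcl : Close ρ u u' sn)
    (hA : ‖perp u (A - p)‖ ≤ 1) (hB : ‖perp u (B - p)‖ ≤ 1)
    (hC : ‖perp u (C - p)‖ ≤ 1) (hD : ‖perp u (D - p)‖ ≤ 1)
    (hA' : ‖perp u' (A - p')‖ ≤ 1) (hB' : ‖perp u' (B - p')‖ ≤ 1)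
    (hC' : ‖perp u' (C - p')‖ ≤ 1) (hD' : ‖perp u' (D - p')‖ ≤ 1)
    (dAB : 2 < ‖A - B‖) (dAC : 2 < ‖A - C‖) (dAD : 2 < ‖A - D‖) (dBC : 2 < ‖B - C‖)
    (dBD : 2 < ‖B - D‖) (dCD : 2 < ‖C - D‖)
    (h1 : ⟪u, A⟫ < ⟪u, B⟫) (h2 : ⟪u, B⟫ < ⟪u, C⟫) (h3 : ⟪u, C⟫ < ⟪u, D⟫)
    (h1' : ⟪u', B⟫ < ⟪u', A⟫) (h2' : ⟪u', A⟫ < ⟪u', D⟫) (h3' : ⟪u', D⟫ < ⟪u', C⟫) : False := by
  have hu := hcl.hu
  have hu' := hcl.hu'
  have hρ := hcl.hρ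
  -- ranges
  have t1 := hT p u A B C hu hA hB hC dAB dBC dAC h1 h2
  have t2 := hT p u B C D hu hB hC hD dBC dCD dBD h2 h3
  have t3 := hT p' u' A D C hu' hA' hD' hC' dAD (by rw [norm_sub_rev]; exact dCD) dAC h2' h3'
  have t4 := hT p' u' B A D hu' hB' hA' hD' (by rw [norm_sub_rev]; exact dAB) dAD dBD h1' h2'
  -- the two pairs
  obtain ⟨_, _, x1⟩ := swap_short hcl hA hB hA' hB' h1 h1'
  obtain ⟨_, _, x2⟩ := swap_short hcl hC hD hC' hD' h3 h3'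
  -- the interaction inequalities
  have b1 := line_bound hu hA hB hC hD dAB dCD
  have b1' := line_bound hu' hA' hB' hC' hD' dAB dCD
  have b2 := line_bound hu hC hD hA hB dCD dAB
  have b2' := line_bound hu' hC' hD' hA' hB' dCD dAB
  have d1 := inner_decomp hu ((C + D) - (A + B)) (B - A)
  have d1' := inner_decomp hu' ((C + D) - (A + B)) (B - A)
  have d2 := inner_decomp hu ((A + B) - (C + D)) (D - C)
  have d2' := inner_decomp hu' ((A + B) - (C + D)) (D - C)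
  simp only [inner_sub_right u, inner_add_right u, inner_sub_right u', inner_add_right u']
    at d1 d1' d2 d2'
  rw [abs_of_pos (by linarith : 0 < ⟪u, D⟫ - ⟪u, C⟫)] at b1
  rw [abs_of_neg (by linarith : ⟪u', D⟫ - ⟪u', C⟫ < 0)] at b1'
  rw [abs_of_pos (by linarith : 0 < ⟪u, B⟫ - ⟪u, A⟫)] at b2
  rw [abs_of_neg (by linarith : ⟪u', B⟫ - ⟪u', A⟫ < 0)] at b2'
  have c1 := (abs_le.1 b1).1
  have c1' := (abs_le.1 b1').2
  have c2 := (abs_le.1 b2).2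
  have c2' := (abs_le.1 b2').1
  clear b1 b1' b2 b2'
  generalize ⟪perp u ((C + D) - (A + B)), perp u (B - A)⟫ = P1 at *
  generalize ⟪perp u' ((C + D) - (A + B)), perp u' (B - A)⟫ = P1' at *
  generalize ⟪perp u ((A + B) - (C + D)), perp u (D - C)⟫ = P2 at *
  generalize ⟪perp u' ((A + B) - (C + D)), perp u' (D - C)⟫ = P2' at *
  generalize ⟪(C + D) - (A + B), B - A⟫ = Q1 at *
  generalize ⟪(A + B) - (C + D), D - C⟫ = Q2 at *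
  generalize ⟪u, A⟫ = a at *
  generalize ⟪u, B⟫ = b at *
  generalize ⟪u, C⟫ = c at *
  generalize ⟪u, D⟫ = d at *
  generalize ⟪u', A⟫ = a' at *
  generalize ⟪u', B⟫ = b' at *
  generalize ⟪u', C⟫ = c' at *
  generalize ⟪u', D⟫ = d' at *
  -- H and H'
  have H1 : 2 * ρ * (b - a) ≤ (c + d - (a + b)) * (b - a) :=
    mul_le_mul_of_nonneg_right (by linarith) (by linarith)
  have H1' : 2 * ρ * (a' - b') ≤ (c' + d' - (a' + b')) * (a' - b') :=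
    mul_le_mul_of_nonneg_right (by linarith) (by linarith)
  have H2 : 2 * ρ * (d - c) ≤ (c + d - (a + b)) * (d - c) :=
    mul_le_mul_of_nonneg_right (by linarith) (by linarith)
  have H2' : 2 * ρ * (c' - d') ≤ (c' + d' - (a' + b')) * (c' - d') :=
    mul_le_mul_of_nonneg_right (by linarith) (by linarith)
  have S1 := num1 d1 d1' c1 c1' H1 H1'
  have S2 := num2 d2 d2' c2 c2' H2 H2'
  have e1 : b' - a' = -(a' - b') := by ring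
  have e2 : d' - c' = -(c' - d') := by ring
  rw [e1] at S1
  rw [e2] at S2
  exact num3 rfl rfl (sub_pos.2 h1) (sub_pos.2 h1') (sub_pos.2 h3) (sub_pos.2 h3') S1 S2 x1 x2

/-- General position: at most one pair is swapped. -/
theorem gp_pair {ρ sn : ℝ} (hT : Triple E ρ) {u u' p p' : E} (hcl : Close ρ u u' sn)
    {G : Finset E} (hG : ∀ c ∈ G, ‖perp u (c - p)‖ ≤ 1) (hG' : ∀ c ∈ G, ‖perp u' (c - p')‖ ≤ 1)
    (hdis : ∀ a ∈ G, ∀ b ∈ G, a ≠ b → 2 < ‖a - b‖) :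
    ∀ i ∈ G, ∀ j ∈ G, ∀ k ∈ G, ∀ l ∈ G, ⟪u, i⟫ < ⟪u, j⟫ → ⟪u', j⟫ < ⟪u', i⟫ →
      ⟪u, k⟫ < ⟪u, l⟫ → ⟪u', l⟫ < ⟪u', k⟫ → i = k ∧ j = l := by
  have ne1 : ∀ {x y : E}, ⟪u, x⟫ < ⟪u, y⟫ → x ≠ y := by
    rintro x y h rfl; exact lt_irrefl _ h
  have ne1' : ∀ {x y : E}, ⟪u', x⟫ < ⟪u', y⟫ → x ≠ y := by
    rintro x y h rfl; exact lt_irrefl _ h
  have tot : ∀ x ∈ G, ∀ y ∈ G, x ≠ y → ⟪u, x⟫ < ⟪u, y⟫ ∨ ⟪u, y⟫ < ⟪u, x⟫ := by
    intro x hx y hy hxy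
    have := hit_sep hcl.hu le_rfl (hG x hx) (hG y hy) (hdis x hx y hy hxy)
    rw [inner_sub_right] at this
    exact lt_or_gt_of_ne fun h => this (by rw [h, sub_self])
  have tot' : ∀ x ∈ G, ∀ y ∈ G, x ≠ y → ⟪u', x⟫ < ⟪u', y⟫ ∨ ⟪u', y⟫ < ⟪u', x⟫ := by
    intro x hx y hy hxy
    have := hit_sep hcl.hu' le_rfl (hG' x hx) (hG' y hy) (hdis x hx y hy hxy)
    rw [inner_sub_right] at this
    exact lt_or_gt_of_ne fun h => this (by rw [h, sub_self])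
  have adj : ∀ a ∈ G, ∀ b ∈ G, ∀ c ∈ G, ⟪u, a⟫ < ⟪u, b⟫ → ⟪u', b⟫ < ⟪u', a⟫ →
      ⟪u, a⟫ < ⟪u, c⟫ → ⟪u, c⟫ < ⟪u, b⟫ → False := by
    intro a ha b hb c hc h1 h2 h3 h4
    exact swap_adj hT hcl (hG a ha) (hG b hb) (hG c hc) (hG' a ha) (hG' b hb)
      (hdis a ha b hb (ne1 h1)) (hdis a ha c hc (ne1 h3)) (hdis c hc b hb (ne1 h4)) h1 h2 ⟨h3, h4⟩
  have adj' : ∀ a ∈ G, ∀ b ∈ G, ∀ c ∈ G, ⟪u, a⟫ < ⟪u, b⟫ → ⟪u', b⟫ < ⟪u', a⟫ →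
      ⟪u', b⟫ < ⟪u', c⟫ → ⟪u', c⟫ < ⟪u', a⟫ → False := by
    intro a ha b hb c hc h1 h2 h3 h4
    exact swap_adj' hT hcl (hG a ha) (hG b hb) (hG' c hc) (hG' a ha) (hG' b hb)
      (hdis a ha b hb (ne1 h1)) (hdis a ha c hc (ne1' h4).symm) (hdis c hc b hb (ne1' h3).symm)
      h1 h2 ⟨h3, h4⟩
  -- the disjoint case
  have main : ∀ i ∈ G, ∀ j ∈ G, ∀ k ∈ G, ∀ l ∈ G, ⟪u, i⟫ < ⟪u, j⟫ → ⟪u', j⟫ < ⟪u', i⟫ →
      ⟪u, k⟫ < ⟪u, l⟫ → ⟪u', l⟫ < ⟪u', k⟫ → ⟪u, i⟫ < ⟪u, k⟫ → False := by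
    intro i hi j hj k hk l hl h1 h1' h2 h2' hik
    -- j ≤ k
    by_cases hjk : j = k
    · subst hjk
      exact adj i hi l hl j hj (h1.trans h2) (h2'.trans h1') h1 h2
    rcases tot j hj k hk hjk with hlt | hgt
    swap
    · exact adj i hi j hj k hk h1 h1' hik hgt
    -- i < j < k < l on the first line
    have hil : i ≠ l := ne1 (hik.trans h2)
    have hik' : i ≠ k := ne1 hik
    have hjl : j ≠ l := ne1 (hlt.trans h2)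
    rcases tot' i hi k hk hik' with g | g
    swap
    · exact adj i hi k hk j hj hik g h1 hlt
    -- i before k on the second line
    rcases tot' i hi l hl hil with g2 | g2
    swap
    · exact adj i hi l hl j hj (hik.trans h2) g2 h1 (hlt.trans h2)
    exact no_double hT hcl (hG i hi) (hG j hj) (hG k hk) (hG l hl) (hG' i hi) (hG' j hj)
      (hG' k hk) (hG' l hl) (hdis i hi j hj (ne1 h1)) (hdis i hi k hk hik') (hdis i hi l hl hil)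
      (hdis j hj k hk hjk) (hdis j hj l hl hjl) (hdis k hk l hl (ne1 h2)) h1 hlt h2 h1' g2 h2'
  intro i hi j hj k hk l hl h1 h1' h2 h2'
  by_cases hik : i = k
  · subst hik
    refine ⟨rfl, ?_⟩
    by_contra hjl
    rcases tot j hj l hl hjl with h | h
    · exact adj i hi l hl j hj h2 h2' h1 h
    · exact adj i hi j hj l hl h1 h1' h2 h
  · exfalso
    rcases tot i hi k hk hik with h | h
    · exact main i hi j hj k hk l hl h1 h1' h2 h2' h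
    · exact main k hk l hl i hi j hj h2 h2' h1 h1' h

end Pool.Agent.D0H22.Danz
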