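import Pool.Agent.D0H22.Danz.Basis

set_option autoImplicit false

/-!
# Helly type theorem for lines with a prescribed order
-/

namespace Pool.Agent.D0H22.Danz

open scoped RealInnerProductSpace Topology
open Real Module

variable {E : Type*} [NormedAddCommGroup E] [InnerProductSpace ℝ E]

/-- Optimal line with its basis. -/
structure OptB (R : E → E → Prop) (F : Finset E) (d : ℕ) (r : ℝ) (p u : E) (D : Finset E) :
    Prop where
  r0 : 0 ≤ r
  r1 : r ≤ 1
  fe : Fe R F r p u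
  sub : D ⊆ F
  card : D.card ≤ 2 * d - 1
  rigid : Rigid D r p u

theorem exists_optB [FiniteDimensional ℝ E] {d : ℕ} (hd : 2 ≤ d) (hE : finrank ℝ E = d)
    {R : E → E → Prop} {F : Finset E} (hcard : 2 ≤ F.card)
    (hdis : ∀ a ∈ F, ∀ b ∈ F, a ≠ b → 2 < ‖a - b‖) (hfeas : ∃ p u, Fe R F 1 p u) :
    ∃ r p u D, OptB R F d r p u D := by
  have hne : F.Nonempty := Finset.card_pos.1 (by omega)
  obtain ⟨r, p, u, h0, h1, hF, hopt⟩ := exists_opt hne hfeas
  obtain ⟨D, hD, hDc, hrig⟩ := exists_basis hd hE h0 h1 hF hcard hdis hopt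
  exact ⟨r, p, u, D, h0, h1, hF, hD, hDc, hrig⟩

/-- Transfer of a point to an equal line. -/
lemma perp_eq_of_line_eq {u p q : E} (h : perp u (q - p) = 0) (c : E) :
    perp u (c - q) = perp u (c - p) := by
  have : c - q = (c - p) - (q - p) := by abel
  rw [this, perp_sub, h, sub_zero]

theorem hprime [FiniteDimensional ℝ E] {d : ℕ} (hd : 2 ≤ d) (hE : finrank ℝ E = d)
    {S : Finset E} (hdis : ∀ a ∈ S, ∀ b ∈ S, a ≠ b → 2 < ‖a - b‖)
    (R : E → E → Prop) (hR : ∀ a ∈ S, ∀ b ∈ S, a ≠ b → R a b ∨ R b a)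
    (hno : ¬ ∃ p u, Fe R S 1 p u) :
    ∃ C ⊆ S, C.card ≤ 2 * d + 1 ∧ ¬ ∃ p u, Fe R C 1 p u := by
  classical
  have hne : (S.powerset.filter fun C => ¬ ∃ p u, Fe R C 1 p u).Nonempty :=
    ⟨S, by simp only [Finset.mem_filter, Finset.mem_powerset]; exact ⟨subset_rfl, hno⟩⟩
  obtain ⟨C, hC, hmin⟩ := Finset.exists_min_image _ (fun C => C.card) hne
  rw [Finset.mem_filter, Finset.mem_powerset] at hC
  obtain ⟨hCS, hCno⟩ := hC
  refine ⟨C, hCS, ?_, hCno⟩
  by_contra hcard
  push Not at hcard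
  have hdisC : ∀ a ∈ C, ∀ b ∈ C, a ≠ b → 2 < ‖a - b‖ := fun a ha b hb =>
    hdis a (hCS ha) b (hCS hb)
  have hopt : ∀ x : C, ∃ r p u D, OptB R (C.erase x) d r p u D := by
    intro x
    apply exists_optB hd hE
    · rw [Finset.card_erase_of_mem x.2]; omega
    · intro a ha b hb
      exact hdisC a (Finset.mem_of_mem_erase ha) b (Finset.mem_of_mem_erase hb)
    · by_contra hcon
      have := hmin (C.erase x) (by
        rw [Finset.mem_filter, Finset.mem_powerset]
        exact ⟨(Finset.erase_subset _ _).trans hCS, hcon⟩)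
      rw [Finset.card_erase_of_mem x.2] at this
      omega
  choose r p u D hO using hopt
  have hCne : (Finset.univ : Finset C).Nonempty := by
    rw [Finset.univ_nonempty_iff]
    obtain ⟨c, hc⟩ : C.Nonempty := Finset.card_pos.1 (by omega)
    exact ⟨⟨c, hc⟩⟩
  obtain ⟨x, _, hx⟩ := Finset.exists_max_image (Finset.univ : Finset C) r hCne
  -- two further elements
  have hcard2 : 1 < (C \ insert (x : E) (D x)).card := by
    have g1 := Finset.le_card_sdiff (insert (x : E) (D x)) C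
    have g2 := Finset.card_insert_le (x : E) (D x)
    have g3 := (hO x).card
    omega
  obtain ⟨y, hy, y', hy', hyy'⟩ := Finset.one_lt_card.1 hcard2
  simp only [Finset.mem_sdiff, Finset.mem_insert, not_or] at hy hy'
  -- the lines coincide
  have heq : ∀ z (hz : z ∈ C), z ≠ x → z ∉ D x →
      u ⟨z, hz⟩ = u x ∧ perp (u x) (p ⟨z, hz⟩ - p x) = 0 := by
    intro z hz hzx hzD
    have hDz : ∀ c ∈ D x, c ∈ C.erase z := by
      intro c hc
      have h1 := (hO x).sub hc
      rw [Finset.mem_erase] at h1 ⊢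
      exact ⟨fun h => hzD (h ▸ hc), h1.2⟩
    refine (hO x).rigid _ _ (hO ⟨z, hz⟩).fe.unit ?_ ?_
    · intro c hc
      exact le_trans ((hO ⟨z, hz⟩).fe.near c (hDz c hc)) (hx ⟨z, hz⟩ (Finset.mem_univ _))
    · intro a ha b hb hab
      have ha1 := (hO x).sub ha
      have hb1 := (hO x).sub hb
      have haC := Finset.mem_of_mem_erase ha1
      have hbC := Finset.mem_of_mem_erase hb1
      have s1 := hit_sep (hO x).fe.unit (hO x).r1 ((hO x).fe.near a ha1)
        ((hO x).fe.near b hb1) (hdisC a haC b hbC hab)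
      have s2 := hit_sep (hO ⟨z, hz⟩).fe.unit (hO ⟨z, hz⟩).r1
        ((hO ⟨z, hz⟩).fe.near a (hDz a ha)) ((hO ⟨z, hz⟩).fe.near b (hDz b hb))
        (hdisC a haC b hbC hab)
      rw [inner_sub_right] at s1 s2 ⊢
      rw [inner_sub_right]
      rcases hR a (hCS haC) b (hCS hbC) hab with h | h
      · have t1 := (hO x).fe.comp a ha1 b hb1 h
        have t2 := (hO ⟨z, hz⟩).fe.comp a (hDz a ha) b (hDz b hb) h
        have t3 : ⟪u x, a⟫ - ⟪u x, b⟫ < 0 := lt_of_le_of_ne (by linarith) s1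
        have t4 : ⟪u ⟨z, hz⟩, a⟫ - ⟪u ⟨z, hz⟩, b⟫ < 0 := lt_of_le_of_ne (by linarith) s2
        exact mul_pos_of_neg_of_neg t3 t4
      · have t1 := (hO x).fe.comp b hb1 a ha1 h
        have t2 := (hO ⟨z, hz⟩).fe.comp b (hDz b hb) a (hDz a ha) h
        have t3 : 0 < ⟪u x, a⟫ - ⟪u x, b⟫ := lt_of_le_of_ne (by linarith) (Ne.symm s1)
        have t4 : 0 < ⟪u ⟨z, hz⟩, a⟫ - ⟪u ⟨z, hz⟩, b⟫ := lt_of_le_of_ne (by linarith) (Ne.symm s2)
        exact mul_pos t3 t4
  obtain ⟨e1, e2⟩ := heq y hy.1 hy.2.1 hy.2.2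
  obtain ⟨e1', e2'⟩ := heq y' hy'.1 hy'.2.1 hy'.2.2
  apply hCno
  refine ⟨p x, u x, (hO x).fe.unit, ?_, ?_⟩
  · intro c hc
    by_cases hcx : c = x
    · have h1 := (hO ⟨y, hy.1⟩).fe.near c (by
        rw [Finset.mem_erase]
        exact ⟨fun h => hy.2.1 (h.symm.trans hcx), hc⟩)
      rw [e1, perp_eq_of_line_eq e2] at h1
      exact le_trans h1 (hO ⟨y, hy.1⟩).r1
    · exact le_trans ((hO x).fe.near c (Finset.mem_erase.2 ⟨hcx, hc⟩)) (hO x).r1
  · intro a ha b hb hab
    by_cases hy1 : a = y ∨ b = y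
    · by_cases hy2 : a = y' ∨ b = y'
      · -- then {a, b} = {y, y'} misses x
        have hax : a ≠ x := by
          rcases hy1 with h | h
          · rw [h]; exact hy.2.1
          · rcases hy2 with h' | h'
            · rw [h']; exact hy'.2.1
            · exact absurd (h.symm.trans h') hyy'
        have hbx : b ≠ x := by
          rcases hy1 with h | h
          · rcases hy2 with h' | h'
            · exact absurd (h.symm.trans h') hyy'
            · rw [h']; exact hy'.2.1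
          · rw [h]; exact hy.2.1
        exact (hO x).fe.comp a (Finset.mem_erase.2 ⟨hax, ha⟩) b (Finset.mem_erase.2 ⟨hbx, hb⟩) hab
      · push Not at hy2
        have := (hO ⟨y', hy'.1⟩).fe.comp a (Finset.mem_erase.2 ⟨hy2.1, ha⟩) b
          (Finset.mem_erase.2 ⟨hy2.2, hb⟩) hab
        rwa [e1'] at this
    · push Not at hy1
      have := (hO ⟨y, hy.1⟩).fe.comp a (Finset.mem_erase.2 ⟨hy1.1, ha⟩) b
        (Finset.mem_erase.2 ⟨hy1.2, hb⟩) hab
      rwa [e1] at this

end Pool.Agent.D0H22.Danz
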