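import Pool.Agent.D0H22.Danz.Pair

set_option autoImplicit false

/-!
# Uniqueness of the optimal line among lines with the same order
-/

namespace Pool.Agent.D0H22.Danz

open scoped RealInnerProductSpace
open Real

variable {E : Type*} [NormedAddCommGroup E] [InnerProductSpace ℝ E]

/-- The component of `z` orthogonal to the unit vector `u`. -/
noncomputable def perp (u z : E) : E := z - ⟪u, z⟫ • u

lemma perp_add (u z w : E) : perp u (z + w) = perp u z + perp u w := by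
  unfold perp; rw [inner_add_right, add_smul]; abel

lemma perp_sub (u z w : E) : perp u (z - w) = perp u z - perp u w := by
  unfold perp; rw [inner_sub_right, sub_smul]; abel

lemma perp_smul (u z : E) (t : ℝ) : perp u (t • z) = t • perp u z := by
  unfold perp; rw [real_inner_smul_right, smul_sub, smul_smul]

lemma norm_perp_sq {u : E} (hu : ‖u‖ = 1) (z : E) : ‖perp u z‖ ^ 2 = ‖z‖ ^ 2 - ⟪u, z⟫ ^ 2 := by
  unfold perp
  rw [norm_sub_sq_real, real_inner_smul_right, norm_smul, hu, real_inner_comm, Real.norm_eq_abs,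
    mul_one, sq_abs]
  ring

lemma inner_perp {u : E} (hu : ‖u‖ = 1) (z : E) : ⟪u, perp u z⟫ = 0 := by
  unfold perp
  rw [inner_sub_right, real_inner_smul_right, real_inner_self_eq_norm_sq, hu]
  ring

lemma perp_self {u : E} (hu : ‖u‖ = 1) : perp u u = 0 := by
  unfold perp
  rw [real_inner_self_eq_norm_sq, hu]
  simp

lemma perp_neg (u z : E) : perp (-u) z = perp u z := by
  unfold perp
  rw [inner_neg_left, smul_neg, neg_smul, neg_neg]

lemma norm_decomp {e v : E} (he : ‖e‖ = 1) (hv : ‖v‖ = 1) (hev : ⟪e, v⟫ = 0) (z : E) :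
    ‖z - ⟪e, z⟫ • e - ⟪v, z⟫ • v‖ ^ 2 = ‖z‖ ^ 2 - ⟪e, z⟫ ^ 2 - ⟪v, z⟫ ^ 2 := by
  have h1 : z - ⟪e, z⟫ • e - ⟪v, z⟫ • v = perp v (perp e z) := by
    unfold perp
    rw [inner_sub_right, real_inner_smul_right, real_inner_comm e v, hev]
    simp
  rw [h1, norm_perp_sq hv, norm_perp_sq he]
  unfold perp
  rw [inner_sub_right, real_inner_smul_right, real_inner_comm e v, hev]
  ring

lemma weighted_contra {ι : Type*} (D : Finset ι) (w X q : ι → ℝ) (hw : ∀ c ∈ D, 0 < w c)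
    (h0 : ∑ c ∈ D, w c * X c = 0) (h1 : ∑ c ∈ D, w c * X c * q c ≤ 0)
    (hsep : ∀ i ∈ D, ∀ j ∈ D, 0 < X i → X j < 0 → q j < q i)
    (hne : ∃ c ∈ D, X c ≠ 0) : False := by
  classical
  -- a positive and a negative index
  have hneg : ∃ j ∈ D, X j < 0 := by
    by_contra hcon
    push Not at hcon
    have h2 : ∀ c ∈ D, 0 ≤ w c * X c := fun c hc => mul_nonneg (hw c hc).le (hcon c hc)
    have h3 := (Finset.sum_eq_zero_iff_of_nonneg h2).1 h0
    obtain ⟨c, hc, hX⟩ := hne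
    rcases mul_eq_zero.1 (h3 c hc) with h | h
    · exact (hw c hc).ne' h
    · exact hX h
  have hpos : ∃ i ∈ D, 0 < X i := by
    by_contra hcon
    push Not at hcon
    have h2 : ∀ c ∈ D, 0 ≤ -(w c * X c) := fun c hc =>
      neg_nonneg.2 (mul_nonpos_of_nonneg_of_nonpos (hw c hc).le (hcon c hc))
    have h0' : ∑ c ∈ D, -(w c * X c) = 0 := by rw [Finset.sum_neg_distrib, h0, neg_zero]
    have h3 := (Finset.sum_eq_zero_iff_of_nonneg h2).1 h0'
    obtain ⟨c, hc, hX⟩ := hne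
    rcases mul_eq_zero.1 (neg_eq_zero.1 (h3 c hc)) with h | h
    · exact (hw c hc).ne' h
    · exact hX h
  -- the threshold
  obtain ⟨j0, hj0, hj0X⟩ := hneg
  have hN : (D.filter fun j => X j < 0).Nonempty := ⟨j0, by simp [hj0, hj0X]⟩
  obtain ⟨m, hm, hmax⟩ := Finset.exists_max_image (D.filter fun j => X j < 0) q hN
  rw [Finset.mem_filter] at hm
  have hterm : ∀ c ∈ D, 0 ≤ w c * X c * (q c - q m) := by
    intro c hc
    rcases lt_trichotomy (X c) 0 with h | h | h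
    · have h2 := hmax c (by simp [hc, h])
      have h3 : w c * X c ≤ 0 := mul_nonpos_of_nonneg_of_nonpos (hw c hc).le h.le
      exact mul_nonneg_of_nonpos_of_nonpos h3 (by linarith)
    · rw [h]; simp
    · have h2 := hsep c hc m hm.1 h hm.2
      exact mul_nonneg (mul_nonneg (hw c hc).le h.le) (by linarith)
  have hsum : ∑ c ∈ D, w c * X c * (q c - q m) ≤ 0 := by
    have e : ∑ c ∈ D, w c * X c * (q c - q m) =
        ∑ c ∈ D, w c * X c * q c - (∑ c ∈ D, w c * X c) * q m := by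
      rw [Finset.sum_mul, ← Finset.sum_sub_distrib]
      exact Finset.sum_congr rfl fun c _ => by ring
    rw [e, h0, zero_mul, sub_zero]
    exact h1
  have hz := (Finset.sum_eq_zero_iff_of_nonneg hterm).1
    (le_antisymm hsum (Finset.sum_nonneg hterm))
  obtain ⟨i, hi, hiX⟩ := hpos
  have h2 := hsep i hi m hm.1 hiX hm.2
  have h3 : 0 < w i * X i * (q i - q m) := mul_pos (mul_pos (hw i hi) hiX) (by linarith)
  exact h3.ne' (hz i hi)

/-- The part of `z` orthogonal to the plane spanned by `e, v`. -/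
noncomputable def orth (e v z : E) : E := z - ⟪e, z⟫ • e - ⟪v, z⟫ • v

lemma orth_sub (e v z w : E) : orth e v (z - w) = orth e v z - orth e v w := by
  unfold orth
  rw [inner_sub_right, inner_sub_right, sub_smul, sub_smul]
  abel

lemma single_bound {e v u : E} {θ r : ℝ} (he : ‖e‖ = 1) (hv : ‖v‖ = 1) (hev : ⟪e, v⟫ = 0)
    (hu' : u = cos θ • e + sin θ • v) (hu : ‖u‖ = 1) {z : E} (hz : ‖perp u z‖ ≤ r) :
    ‖orth e v z‖ ≤ r ∧ |⟪v, z⟫ * cos θ - ⟪e, z⟫ * sin θ| ≤ √(r ^ 2 - ‖orth e v z‖ ^ 2) := by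
  have hr : 0 ≤ r := le_trans (norm_nonneg _) hz
  have hz2 : ‖perp u z‖ ^ 2 ≤ r ^ 2 := pow_le_pow_left₀ (norm_nonneg _) hz 2
  rw [norm_perp_sq hu] at hz2
  have h1 : ⟪u, z⟫ = cos θ * ⟪e, z⟫ + sin θ * ⟪v, z⟫ := by
    rw [hu', inner_add_left, real_inner_smul_left, real_inner_smul_left]
  have h2 := norm_decomp he hv hev z
  have h3 : (⟪v, z⟫ * cos θ - ⟪e, z⟫ * sin θ) ^ 2 + ⟪u, z⟫ ^ 2 = ⟪e, z⟫ ^ 2 + ⟪v, z⟫ ^ 2 := by
    rw [h1]
    linear_combination (⟪e, z⟫ ^ 2 + ⟪v, z⟫ ^ 2) * (Real.sin_sq_add_cos_sq θ)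
  have h4 : (⟪v, z⟫ * cos θ - ⟪e, z⟫ * sin θ) ^ 2 ≤ r ^ 2 - ‖orth e v z‖ ^ 2 := by
    unfold orth
    rw [h2]
    linarith
  constructor
  · have : ‖orth e v z‖ ^ 2 ≤ r ^ 2 := by
      have := sq_nonneg (⟪v, z⟫ * cos θ - ⟪e, z⟫ * sin θ)
      linarith
    exact (abs_le_of_sq_le_sq' this hr).2
  · exact Real.abs_le_sqrt h4

lemma pair_feas {e v u p q c1 c2 : E} {θ r : ℝ} (he : ‖e‖ = 1) (hv : ‖v‖ = 1) (hev : ⟪e, v⟫ = 0)
    (hu' : u = cos θ • e + sin θ • v) (hu : ‖u‖ = 1) (hq1 : ‖perp u (c1 - q)‖ ≤ r)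
    (hq2 : ‖perp u (c2 - q)‖ ≤ r) (hord : 0 < ⟪e, c1 - c2⟫ * ⟪u, c1 - c2⟫) :
    Feas ⟪v, c1 - p⟫ ⟪v, c2 - p⟫ ⟪e, c1 - p⟫ ⟪e, c2 - p⟫ r (orth e v (c1 - p)) (orth e v (c2 - p))
      θ (orth e v (q - p)) := by
  obtain ⟨a1, a2⟩ := single_bound he hv hev hu' hu hq1
  obtain ⟨b1, b2⟩ := single_bound he hv hev hu' hu hq2
  have e1 : orth e v (c1 - p) - orth e v (q - p) = orth e v (c1 - q) := by
    rw [← orth_sub]; congr 1; abel
  have e2 : orth e v (c2 - p) - orth e v (q - p) = orth e v (c2 - q) := by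
    rw [← orth_sub]; congr 1; abel
  have f1 : ∀ x : E, ⟪x, c1 - p⟫ - ⟪x, c2 - p⟫ = ⟪x, c1 - c2⟫ := by
    intro x; rw [← inner_sub_right]; congr 1; abel
  have f2 : ∀ x : E, ⟪x, c1 - q⟫ - ⟪x, c2 - q⟫ = ⟪x, c1 - c2⟫ := by
    intro x; rw [← inner_sub_right]; congr 1; abel
  refine ⟨by rw [e1]; exact a1, by rw [e2]; exact b1, ?_, ?_⟩
  · rw [e1, e2, f1, f1, ← f2 v, ← f2 e]
    have : (⟪v, c1 - q⟫ - ⟪v, c2 - q⟫) * cos θ - (⟪e, c1 - q⟫ - ⟪e, c2 - q⟫) * sin θ =
      (⟪v, c1 - q⟫ * cos θ - ⟪e, c1 - q⟫ * sin θ) -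
      (⟪v, c2 - q⟫ * cos θ - ⟪e, c2 - q⟫ * sin θ) := by ring
    rw [this]
    exact le_trans (abs_sub _ _) (add_le_add a2 b2)
  · rw [f1, f1]
    have : ⟪u, c1 - c2⟫ = ⟪e, c1 - c2⟫ * cos θ + ⟪v, c1 - c2⟫ * sin θ := by
      rw [hu', inner_add_left, real_inner_smul_left, real_inner_smul_left]; ring
    rw [← this]
    exact hord

/-- Uniqueness of a line carrying a stress, among lines with the same order. -/
theorem key {D : Finset E} {p e : E} {r : ℝ} {w : E → ℝ} (hr : 0 < r) (he : ‖e‖ = 1)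
    (hDne : D.Nonempty)
    (hdis : ∀ c ∈ D, ∀ c' ∈ D, c ≠ c' → 2 * r < ‖c - c'‖)
    (hD : ∀ c ∈ D, ‖perp e (c - p)‖ = r)
    (hw : ∀ c ∈ D, 0 < w c)
    (hw1 : ∑ c ∈ D, w c • perp e (c - p) = 0)
    (hw2 : ∑ c ∈ D, (w c * ⟪e, c - p⟫) • perp e (c - p) = 0)
    {q u : E} (hu : ‖u‖ = 1) (hq : ∀ c ∈ D, ‖perp u (c - q)‖ ≤ r)
    (hord : ∀ c ∈ D, ∀ c' ∈ D, c ≠ c' → 0 < ⟪e, c - c'⟫ * ⟪u, c - c'⟫) :
    u = e ∧ perp e (q - p) = 0 := by
  classical
  have hee : ⟪e, e⟫ = 1 := by rw [real_inner_self_eq_norm_sq, he]; norm_num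
  have huu : ⟪u, u⟫ = 1 := by rw [real_inner_self_eq_norm_sq, hu]; norm_num
  -- two distinct elements
  obtain ⟨c0, hc0⟩ := hDne
  have htwo : ∃ c1 ∈ D, c1 ≠ c0 := by
    by_contra hcon
    push Not at hcon
    have hDs : D = {c0} := by
      ext x; simp only [Finset.mem_singleton]
      exact ⟨fun hx => hcon x hx, fun hx => hx ▸ hc0⟩
    rw [hDs, Finset.sum_singleton] at hw1
    rcases smul_eq_zero.1 hw1 with h | h
    · exact (hw c0 hc0).ne' h
    · have := hD c0 hc0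
      rw [h, norm_zero] at this
      linarith
  obtain ⟨c1, hc1, hc10⟩ := htwo
  by_cases h1 : ⟪e, u⟫ = 1
  · -- parallel case
    have hue : u = e := by
      have : ‖e - u‖ ^ 2 = 0 := by rw [norm_sub_sq_real, h1, he, hu]; norm_num
      have h2 : e - u = 0 := by
        rw [← norm_eq_zero]; exact pow_eq_zero_iff two_ne_zero |>.1 this
      exact (sub_eq_zero.1 h2).symm
    refine ⟨hue, ?_⟩
    subst hue
    have hin : ∀ c ∈ D, w c * ‖perp u (q - p)‖ ^ 2 ≤
        2 * ⟪w c • perp u (c - p), perp u (q - p)⟫ := by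
      intro c hc
      have e1 : perp u (c - q) = perp u (c - p) - perp u (q - p) := by
        rw [← perp_sub]; congr 1; abel
      have e2 : ‖perp u (c - q)‖ ^ 2 ≤ r ^ 2 := pow_le_pow_left₀ (norm_nonneg _) (hq c hc) 2
      rw [e1, norm_sub_sq_real, hD c hc] at e2
      rw [real_inner_smul_left]
      have := mul_le_mul_of_nonneg_left (show ‖perp u (q - p)‖ ^ 2 ≤
        2 * ⟪perp u (c - p), perp u (q - p)⟫ by linarith) (hw c hc).le
      linarith
    have hs := Finset.sum_le_sum hin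
    rw [← Finset.mul_sum, ← sum_inner, hw1, inner_zero_left, mul_zero, ← Finset.sum_mul] at hs
    have hwpos : 0 < ∑ c ∈ D, w c := Finset.sum_pos hw ⟨c0, hc0⟩
    have h3 : ‖perp u (q - p)‖ ^ 2 ≤ 0 := by
      by_contra hcon
      push Not at hcon
      have := mul_pos hwpos hcon
      linarith
    have h4 : ‖perp u (q - p)‖ = 0 := by
      have := le_antisymm h3 (sq_nonneg _)
      exact pow_eq_zero_iff two_ne_zero |>.1 this
    exact norm_eq_zero.1 h4
  exfalso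
  by_cases h2 : ⟪e, u⟫ = -1
  · have hue : u = -e := by
      have : ‖e + u‖ ^ 2 = 0 := by rw [norm_add_sq_real, h2, he, hu]; norm_num
      have h3 : e + u = 0 := by
        rw [← norm_eq_zero]; exact pow_eq_zero_iff two_ne_zero |>.1 this
      exact (neg_eq_of_add_eq_zero_right h3).symm
    have := hord c1 hc1 c0 hc0 hc10
    rw [hue, inner_neg_left] at this
    nlinarith [sq_nonneg ⟪e, c1 - c0⟫]
  -- generic case
  have hκ : |⟪e, u⟫| ≤ 1 := by
    have := abs_real_inner_le_norm e u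
    rwa [he, hu, mul_one] at this
  have hκ1 : -1 < ⟪e, u⟫ := lt_of_le_of_ne (abs_le.1 hκ).1 (Ne.symm h2)
  have hκ2 : ⟪e, u⟫ < 1 := lt_of_le_of_ne (abs_le.1 hκ).2 h1
  obtain ⟨θ, hθ⟩ : ∃ θ, θ = arccos ⟪e, u⟫ := ⟨_, rfl⟩
  have hθ0 : 0 < θ := by rw [hθ]; exact Real.arccos_pos.2 hκ2
  have hθπ : θ < π := by
    rw [hθ]
    refine lt_of_le_of_ne (Real.arccos_le_pi _) ?_
    intro h
    rw [Real.arccos_eq_pi] at h
    linarith
  have hcos : cos θ = ⟪e, u⟫ := by rw [hθ]; exact Real.cos_arccos hκ1.le hκ2.le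
  have hsin : 0 < sin θ := Real.sin_pos_of_pos_of_lt_pi hθ0 hθπ
  have hsc := Real.sin_sq_add_cos_sq θ
  obtain ⟨v, hv⟩ : ∃ v : E, v = (sin θ)⁻¹ • (u - cos θ • e) := ⟨_, rfl⟩
  have hu' : u = cos θ • e + sin θ • v := by
    rw [hv, smul_smul, mul_inv_cancel₀ hsin.ne', one_smul]; abel
  have hev : ⟪e, v⟫ = 0 := by
    rw [hv, real_inner_smul_right, inner_sub_right, real_inner_smul_right, hee, hcos]; ring
  have hvn : ‖v‖ = 1 := by
    have h3 : ‖v‖ ^ 2 = 1 := by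
      rw [hv, norm_smul, mul_pow, norm_sub_sq_real, real_inner_smul_right, norm_smul, he, hu,
        real_inner_comm, ← hcos, Real.norm_eq_abs, Real.norm_eq_abs, sq_abs, mul_one, sq_abs]
      field_simp
      linarith
    exact (pow_eq_one_iff_of_nonneg (norm_nonneg v) two_ne_zero).1 h3
  have hvv : ⟪v, v⟫ = 1 := by rw [real_inner_self_eq_norm_sq, hvn]; norm_num
  have hve : ⟪v, e⟫ = 0 := by rw [real_inner_comm]; exact hev
  have habs : |θ| < π := by rw [abs_of_pos hθ0]; exact hθπ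
  -- coordinates
  obtain ⟨X, hX⟩ : ∃ X : E → ℝ, X = fun c => ⟪v, c - p⟫ := ⟨_, rfl⟩
  obtain ⟨h, hh⟩ : ∃ h : E → ℝ, h = fun c => ⟪e, c - p⟫ := ⟨_, rfl⟩
  obtain ⟨Y, hY⟩ : ∃ Y : E → E, Y = fun c => orth e v (c - p) := ⟨_, rfl⟩
  obtain ⟨y, hy⟩ : ∃ y : E, y = orth e v (q - p) := ⟨_, rfl⟩
  have hey : ⟪e, y⟫ = 0 := by
    rw [hy]; unfold orth
    rw [inner_sub_right, inner_sub_right, real_inner_smul_right, real_inner_smul_right, hee, hev]
    ring
  have hvy : ⟪v, y⟫ = 0 := by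
    rw [hy]; unfold orth
    rw [inner_sub_right, inner_sub_right, real_inner_smul_right, real_inner_smul_right, hvv, hve]
    ring
  have hXY : ∀ c ∈ D, X c ^ 2 + ‖Y c‖ ^ 2 = r ^ 2 := by
    intro c hc
    have a1 := norm_decomp he hvn hev (c - p)
    have a2 := norm_perp_sq he (c - p)
    rw [hD c hc] at a2
    rw [hX, hY]
    simp only
    unfold orth
    rw [a1]
    linarith
  have hYy : ∀ c, ⟪Y c, y⟫ = ⟪perp e (c - p), y⟫ := by
    intro c
    rw [hY]
    simp only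
    unfold orth perp
    rw [inner_sub_left (E := E) _ (⟪v, c - p⟫ • v), real_inner_smul_left (x := v), hvy]
    ring
  have hXx : ∀ c, X c = ⟪v, perp e (c - p)⟫ := by
    intro c
    rw [hX]
    simp only
    unfold perp
    rw [inner_sub_right v (c - p) (⟪e, c - p⟫ • e), real_inner_smul_right v e, hve]
    ring
  have hfeas : ∀ i ∈ D, ∀ j ∈ D, i ≠ j → Feas (X i) (X j) (h i) (h j) r (Y i) (Y j) θ y := by
    intro i hi j hj hij
    rw [hX, hh, hY, hy]
    exact pair_feas he hvn hev hu' hu (hq i hi) (hq j hj) (hord i hi j hj hij)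
  have hdis' : ∀ i ∈ D, ∀ j ∈ D, i ≠ j →
      4 * r ^ 2 < (X i - X j) ^ 2 + (h i - h j) ^ 2 + ‖Y i - Y j‖ ^ 2 := by
    intro i hi j hj hij
    have a1 : ‖i - j‖ ^ 2 = (X i - X j) ^ 2 + (h i - h j) ^ 2 + ‖Y i - Y j‖ ^ 2 := by
      have b1 : Y i - Y j = orth e v (i - j) := by
        rw [hY]; simp only; rw [← orth_sub]; congr 1; abel
      have b2 : X i - X j = ⟪v, i - j⟫ := by
        rw [hX]; simp only; rw [← inner_sub_right]; congr 1; abel
      have b3 : h i - h j = ⟪e, i - j⟫ := by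
        rw [hh]; simp only; rw [← inner_sub_right]; congr 1; abel
      have b4 := norm_decomp he hvn hev (i - j)
      rw [b1, b2, b3]
      unfold orth
      rw [b4]
      ring
    rw [← a1]
    have a2 := hdis i hi j hj hij
    have a3 : (2 * r) ^ 2 < ‖i - j‖ ^ 2 := pow_lt_pow_left₀ a2 (by linarith) two_ne_zero
    linarith
  have hYy0 : ∀ c ∈ D, X c = 0 → ‖y‖ ^ 2 ≤ 2 * ⟪Y c, y⟫ := by
    intro c hc hXc
    have a1 := hXY c hc
    rw [hXc] at a1
    obtain ⟨c', hc', hcc'⟩ : ∃ c' ∈ D, c ≠ c' := by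
      by_cases hcc : c = c0
      · exact ⟨c1, hc1, by rw [hcc]; exact hc10.symm⟩
      · exact ⟨c0, hc0, hcc⟩
    have a2 := (hfeas c hc c' hc' hcc').d1
    have a3 : ‖Y c - y‖ ^ 2 ≤ r ^ 2 := pow_le_pow_left₀ (norm_nonneg _) a2 2
    rw [norm_sub_sq_real] at a3
    linarith
  have hw1v : ∑ c ∈ D, w c * X c = 0 := by
    have a1 := congrArg (fun z => ⟪v, z⟫) hw1
    simp only [inner_sum, real_inner_smul_right, inner_zero_right] at a1
    rw [← a1]
    exact Finset.sum_congr rfl fun c _ => by rw [hXx]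
  have hw1y : ∑ c ∈ D, w c * ⟪Y c, y⟫ = 0 := by
    have a1 := congrArg (fun z => ⟪z, y⟫) hw1
    simp only [sum_inner, real_inner_smul_left, inner_zero_left] at a1
    rw [← a1]
    exact Finset.sum_congr rfl fun c _ => by rw [hYy]
  have hw2v : ∑ c ∈ D, w c * h c * X c = 0 := by
    have a1 := congrArg (fun z => ⟪v, z⟫) hw2
    simp only [inner_sum, real_inner_smul_right, inner_zero_right] at a1
    rw [← a1]
    exact Finset.sum_congr rfl fun c _ => by rw [hXx, hh]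
  by_cases hne : ∃ c ∈ D, X c ≠ 0
  · refine weighted_contra D w X (fun c => θ * h c + ⟪Y c, y⟫ / X c) hw hw1v ?_ ?_ hne
    · have a1 : ∀ c ∈ D, w c * X c * (θ * h c + ⟪Y c, y⟫ / X c) ≤
          θ * (w c * h c * X c) + w c * ⟪Y c, y⟫ := by
        intro c hc
        by_cases hXc : X c = 0
        · have b1 := hYy0 c hc hXc
          have b2 : 0 ≤ ⟪Y c, y⟫ := by nlinarith [sq_nonneg ‖y‖]
          rw [hXc]
          have := mul_nonneg (hw c hc).le b2
          simp only [mul_zero, zero_mul, zero_add]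
          exact this
        · have : w c * X c * (θ * h c + ⟪Y c, y⟫ / X c) =
            θ * (w c * h c * X c) + w c * ⟪Y c, y⟫ := by
            field_simp
          rw [this]
      refine le_trans (Finset.sum_le_sum a1) ?_
      rw [Finset.sum_add_distrib, ← Finset.mul_sum, hw2v, hw1y]
      simp
    · intro i hi j hj hXi hXj
      have hij : i ≠ j := by
        intro hij; rw [hij] at hXi; linarith
      have := si_lt hr.le hXi hXj (hXY i hi) (hXY j hj) (hdis' i hi j hj hij) habs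
        (hfeas i hi j hj hij) (Or.inl hθ0.ne')
      linarith
  · push Not at hne
    have b1 : ∀ c ∈ D, 0 ≤ w c * ⟪Y c, y⟫ := by
      intro c hc
      have b1 := hYy0 c hc (hne c hc)
      exact mul_nonneg (hw c hc).le (by nlinarith [sq_nonneg ‖y‖])
    have b2 := (Finset.sum_eq_zero_iff_of_nonneg b1).1 hw1y c0 hc0
    have b3 : ⟪Y c0, y⟫ = 0 := by
      rcases mul_eq_zero.1 b2 with hz | hz
      · exact absurd hz (hw c0 hc0).ne'
      · exact hz
    have b4 := hYy0 c0 hc0 (hne c0 hc0)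
    have b5 : y = 0 := by
      have : ‖y‖ ^ 2 = 0 := le_antisymm (by linarith) (sq_nonneg _)
      exact norm_eq_zero.1 (pow_eq_zero_iff two_ne_zero |>.1 this)
    have b6 := hfeas c1 hc1 c0 hc0 hc10
    have b7 := b6.rho
    have b8 : r ^ 2 - ‖Y c1 - y‖ ^ 2 = 0 := by
      have := hXY c1 hc1
      rw [hne c1 hc1] at this
      rw [b5, sub_zero]; linarith
    have b9 : r ^ 2 - ‖Y c0 - y‖ ^ 2 = 0 := by
      have := hXY c0 hc0
      rw [hne c0 hc0] at this
      rw [b5, sub_zero]; linarith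
    rw [b8, b9, Real.sqrt_zero, add_zero, hne c1 hc1, hne c0 hc0] at b7
    have b10 := abs_nonpos_iff.1 b7
    have b11 : (h c1 - h c0) * sin θ = 0 := by linarith
    have b12 : h c1 - h c0 = 0 := by
      rcases mul_eq_zero.1 b11 with hz | hz
      · exact hz
      · exact absurd hz hsin.ne'
    have b13 := b6.ord
    rw [b12] at b13
    simp at b13

end Pool.Agent.D0H22.Danz
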