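import Mathlib

set_option autoImplicit false

/-!
# Midpoint lemma for two disjoint balls of equal radius and two lines
-/

namespace Pool.Agent.D0H22.Danz

open scoped RealInnerProductSpace
open Real

variable {E : Type*} [NormedAddCommGroup E] [InnerProductSpace ℝ E]

lemma mid_core {a b m c d n E0 : ℝ} (hm : 0 ≤ m) (hn : 0 ≤ n) (hE : 0 ≤ E0)
    (hi : 4 * m ^ 2 = 2 * a ^ 2 + 2 * b ^ 2 + E0) (hj : 4 * n ^ 2 = 2 * c ^ 2 + 2 * d ^ 2 + E0) :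
    E0 + 2 * a * d + 2 * c * b ≤ 4 * m * n := by
  have h1 : (E0 + 2 * a * d + 2 * c * b) ^ 2 ≤ (4 * m * n) ^ 2 := by
    have e : (4 * m * n) ^ 2 = (4 * m ^ 2) * (4 * n ^ 2) := by ring
    rw [e, hi, hj]
    nlinarith [sq_nonneg (a * c - b * d), mul_nonneg hE (sq_nonneg (a - d)),
      mul_nonneg hE (sq_nonneg (b - c))]
  exact le_trans (le_abs_self _) (abs_le_of_sq_le_sq h1 (by positivity))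

/-- Product estimate. -/
lemma mid_prod {ε A B C p q x y : ℝ} (hε : 0 < ε) (hB0 : 0 ≤ B)
    (hCS1 : C ^ 2 ≤ A * B) (hCS2 : 0 ≤ q ^ 2 * A - 2 * (p * q) * C + p ^ 2 * B)
    (hx : ε + A + p ^ 2 ≤ x ^ 2) (hy : ε + B + q ^ 2 ≤ y ^ 2) :
    (ε + C + p * q) ^ 2 + ε * (A + B - 2 * C) ≤ (x * y) ^ 2 := by
  have h1 : (ε + A + p ^ 2) * (ε + B + q ^ 2) ≤ x ^ 2 * y ^ 2 :=
    mul_le_mul hx hy (by positivity) (sq_nonneg _)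
  have h3 : 0 ≤ ε * (p - q) ^ 2 := mul_nonneg hε.le (sq_nonneg _)
  have h4 : (x * y) ^ 2 = x ^ 2 * y ^ 2 := by ring
  rw [h4]
  refine le_trans ?_ h1
  have h5 : (ε + A + p ^ 2) * (ε + B + q ^ 2) -
      ((ε + C + p * q) ^ 2 + ε * (A + B - 2 * C)) =
      (A * B - C ^ 2) + (q ^ 2 * A - 2 * (p * q) * C + p ^ 2 * B) + ε * (p - q) ^ 2 := by ring
  linarith

lemma mid_alg {a b c d m n DX Dh ρ1 η1 P Q S U V W r2 : ℝ}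
    (ha0 : 0 ≤ a) (hc0 : 0 ≤ c) (hm0 : 0 ≤ m) (hn0 : 0 ≤ n)
    (ha2 : a ^ 2 = r2 - P) (hc2 : c ^ 2 = r2 - Q)
    (hb2 : b ^ 2 = r2 - (P - 2 * U + W)) (hd2 : d ^ 2 = r2 - (Q - 2 * V + W))
    (hm2 : m ^ 2 = r2 - (P - U + W / 4)) (hn2 : n ^ 2 = r2 - (Q - V + W / 4))
    (hDX : |DX| ≤ a + c) (hρ : |ρ1| ≤ b + d) (hrot : ρ1 ^ 2 + η1 ^ 2 = DX ^ 2 + Dh ^ 2)
    (hdis : 4 * r2 < DX ^ 2 + Dh ^ 2 + (P - 2 * S + Q)) (hW : 0 ≤ W)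
    (hB0 : 0 ≤ 4 * W - 4 * (U + V) + (P + Q + 2 * S))
    (hCS1 : (-2 * (U + V) + (P + Q + 2 * S)) ^ 2 ≤
      (P + Q + 2 * S) * (4 * W - 4 * (U + V) + (P + Q + 2 * S)))
    (hCS2 : 0 ≤ (b - d) ^ 2 * (P + Q + 2 * S) -
      2 * ((a - c) * (b - d)) * (-2 * (U + V) + (P + Q + 2 * S)) +
      (a - c) ^ 2 * (4 * W - 4 * (U + V) + (P + Q + 2 * S)))
    (hord : 0 < Dh * η1) :
    DX ^ 2 + Dh ^ 2 - Dh * η1 + DX * ρ1 ≤ 2 * (m + n) ^ 2 ∧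
    (0 < W → DX ^ 2 + Dh ^ 2 - Dh * η1 + DX * ρ1 < 2 * (m + n) ^ 2) := by
  have hcore := mid_core (a := a) (b := b) (c := c) (d := d) hm0 hn0 hW
    (by rw [hm2, ha2, hb2]; ring) (by rw [hn2, hc2, hd2]; ring)
  have hDX2 : DX ^ 2 ≤ (a + c) ^ 2 := by
    rw [← sq_abs DX]; exact pow_le_pow_left₀ (abs_nonneg _) hDX 2
  have hρ2 : ρ1 ^ 2 ≤ (b + d) ^ 2 := by
    rw [← sq_abs ρ1]; exact pow_le_pow_left₀ (abs_nonneg _) hρ 2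
  obtain ⟨ε, hε⟩ : ∃ ε, ε = DX ^ 2 + Dh ^ 2 + (P - 2 * S + Q) - 4 * r2 := ⟨_, rfl⟩
  have hεpos : 0 < ε := by rw [hε]; linarith
  have hη0 : ε + (P + Q + 2 * S) + (a - c) ^ 2 ≤ Dh ^ 2 := by
    have e : (a - c) ^ 2 + (a + c) ^ 2 = 2 * a ^ 2 + 2 * c ^ 2 := by ring
    rw [hε]; rw [ha2, hc2] at e; linarith
  have hη1 : ε + (4 * W - 4 * (U + V) + (P + Q + 2 * S)) + (b - d) ^ 2 ≤ η1 ^ 2 := by
    have e : (b - d) ^ 2 + (b + d) ^ 2 = 2 * b ^ 2 + 2 * d ^ 2 := by ring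
    rw [hε]; rw [hb2, hd2] at e; linarith
  have hprod := mid_prod hεpos hB0 hCS1 hCS2 hη0 hη1
  have hAB : (P + Q + 2 * S) + (4 * W - 4 * (U + V) + (P + Q + 2 * S)) -
      2 * (-2 * (U + V) + (P + Q + 2 * S)) = 4 * W := by ring
  rw [hAB] at hprod
  have hρρ : DX * ρ1 ≤ (a + c) * (b + d) := by
    calc DX * ρ1 ≤ |DX * ρ1| := le_abs_self _
      _ = |DX| * |ρ1| := abs_mul _ _
      _ ≤ (a + c) * (b + d) := mul_le_mul hDX hρ (abs_nonneg _) (by positivity)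
  have hfin : DX ^ 2 + Dh ^ 2 - (ε + (-2 * (U + V) + (P + Q + 2 * S)) + (a - c) * (b - d)) +
      (a + c) * (b + d) ≤ 2 * (m + n) ^ 2 := by
    have e1 : (m + n) ^ 2 = m ^ 2 + 2 * m * n + n ^ 2 := by ring
    have e2 : (a + c) * (b + d) - (a - c) * (b - d) = 2 * a * d + 2 * c * b := by ring
    rw [e1, hm2, hn2, hε]
    linarith
  constructor
  · have h1 : (ε + (-2 * (U + V) + (P + Q + 2 * S)) + (a - c) * (b - d)) ^ 2 ≤ (Dh * η1) ^ 2 := by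
      have : 0 ≤ ε * (4 * W) := by positivity
      linarith
    have h2 := le_trans (le_abs_self _) (abs_le_of_sq_le_sq h1 hord.le)
    linarith
  · intro hW
    have h1 : (ε + (-2 * (U + V) + (P + Q + 2 * S)) + (a - c) * (b - d)) ^ 2 < (Dh * η1) ^ 2 := by
      have : 0 < ε * (4 * W) := by positivity
      linarith
    have h2 := lt_of_le_of_lt (le_abs_self _) (abs_lt_of_sq_lt_sq h1 hord.le)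
    linarith

/-- If `y = 0` the slack comes from the angle. -/
lemma mid_alg0 {a c m n DX Dh ρ1 η1 S P Q r2 t : ℝ}
    (ha0 : 0 ≤ a) (hc0 : 0 ≤ c) (hm0 : 0 ≤ m) (hn0 : 0 ≤ n)
    (ha2 : a ^ 2 = r2 - P) (hc2 : c ^ 2 = r2 - Q) (hm2 : m ^ 2 = r2 - P) (hn2 : n ^ 2 = r2 - Q)
    (hDX : |DX| ≤ a + c) (hρ : |ρ1| ≤ a + c)
    (hdis : 4 * r2 < DX ^ 2 + Dh ^ 2 + (P - 2 * S + Q))
    (hA0 : 0 ≤ P + Q + 2 * S)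
    (ht : t < 1) (hdot : DX * ρ1 + Dh * η1 = (DX ^ 2 + Dh ^ 2) * t)
    (hord : 0 < Dh * η1) (hrot : ρ1 ^ 2 + η1 ^ 2 = DX ^ 2 + Dh ^ 2) :
    DX ^ 2 + Dh ^ 2 - Dh * η1 + DX * ρ1 < 2 * (m + n) ^ 2 := by
  have hma : m = a := by
    have h : m ^ 2 = a ^ 2 := by rw [hm2, ha2]
    exact (pow_left_inj₀ hm0 ha0 two_ne_zero).1 h
  have hnc : n = c := by
    have h : n ^ 2 = c ^ 2 := by rw [hn2, hc2]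
    exact (pow_left_inj₀ hn0 hc0 two_ne_zero).1 h
  subst hma hnc
  have hDX2 : DX ^ 2 ≤ (m + n) ^ 2 := by
    rw [← sq_abs DX]; exact pow_le_pow_left₀ (abs_nonneg _) hDX 2
  have hρ2 : ρ1 ^ 2 ≤ (m + n) ^ 2 := by
    rw [← sq_abs ρ1]; exact pow_le_pow_left₀ (abs_nonneg _) hρ 2
  obtain ⟨K, hK⟩ : ∃ K, K = DX ^ 2 + Dh ^ 2 - (m + n) ^ 2 := ⟨_, rfl⟩
  have hK0 : 0 < K := by
    have e : (m - n) ^ 2 + (m + n) ^ 2 = 2 * m ^ 2 + 2 * n ^ 2 := by ring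
    rw [ha2, hc2] at e
    have := sq_nonneg (m - n)
    rw [hK]; linarith
  have h1 : K ≤ Dh ^ 2 := by rw [hK]; linarith
  have h2 : K ≤ η1 ^ 2 := by rw [hK]; linarith
  have h3 : K ≤ Dh * η1 := by
    have h4 : K ^ 2 ≤ (Dh * η1) ^ 2 := by
      have : K * K ≤ Dh ^ 2 * η1 ^ 2 := mul_le_mul h1 h2 hK0.le (sq_nonneg _)
      nlinarith
    exact le_trans (le_abs_self _) (abs_le_of_sq_le_sq h4 hord.le)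
  have hρρ : DX * ρ1 ≤ (m + n) * (m + n) := by
    calc DX * ρ1 ≤ |DX * ρ1| := le_abs_self _
      _ = |DX| * |ρ1| := abs_mul _ _
      _ ≤ (m + n) * (m + n) := mul_le_mul hDX hρ (abs_nonneg _) (by positivity)
  have hL : 0 < DX ^ 2 + Dh ^ 2 := by nlinarith [sq_nonneg DX]
  by_contra hcon
  push Not at hcon
  have h5 : (DX ^ 2 + Dh ^ 2) * t < (DX ^ 2 + Dh ^ 2) * 1 := mul_lt_mul_of_pos_left ht hL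
  nlinarith

lemma norm_sub_sq' (Y y : E) : ‖Y - y‖ ^ 2 = ‖Y‖ ^ 2 - 2 * ⟪Y, y⟫ + ‖y‖ ^ 2 := by
  rw [norm_sub_sq_real]

lemma norm_sub_half_sq (Y y : E) :
    ‖Y - (1 / 2 : ℝ) • y‖ ^ 2 = ‖Y‖ ^ 2 - ⟪Y, y⟫ + ‖y‖ ^ 2 / 4 := by
  rw [norm_sub_sq_real, inner_smul_right, norm_smul]
  rw [Real.norm_of_nonneg (by norm_num : (0 : ℝ) ≤ 1 / 2)]
  ring

lemma norm_add_sq' (Y y : E) : 0 ≤ ‖Y‖ ^ 2 + ‖y‖ ^ 2 + 2 * ⟪Y, y⟫ := by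
  have := norm_add_sq_real Y y
  nlinarith [sq_nonneg ‖Y + y‖]

lemma inner_facts (Y1 Y2 y : E) :
    (0 ≤ 4 * ‖y‖ ^ 2 - 4 * (⟪Y1, y⟫ + ⟪Y2, y⟫) + (‖Y1‖ ^ 2 + ‖Y2‖ ^ 2 + 2 * ⟪Y1, Y2⟫)) ∧
    ((-2 * (⟪Y1, y⟫ + ⟪Y2, y⟫) + (‖Y1‖ ^ 2 + ‖Y2‖ ^ 2 + 2 * ⟪Y1, Y2⟫)) ^ 2 ≤
      (‖Y1‖ ^ 2 + ‖Y2‖ ^ 2 + 2 * ⟪Y1, Y2⟫) *
      (4 * ‖y‖ ^ 2 - 4 * (⟪Y1, y⟫ + ⟪Y2, y⟫) + (‖Y1‖ ^ 2 + ‖Y2‖ ^ 2 + 2 * ⟪Y1, Y2⟫))) ∧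
    (∀ p q : ℝ, 0 ≤ q ^ 2 * (‖Y1‖ ^ 2 + ‖Y2‖ ^ 2 + 2 * ⟪Y1, Y2⟫) -
      2 * (p * q) * (-2 * (⟪Y1, y⟫ + ⟪Y2, y⟫) + (‖Y1‖ ^ 2 + ‖Y2‖ ^ 2 + 2 * ⟪Y1, Y2⟫)) +
      p ^ 2 * (4 * ‖y‖ ^ 2 - 4 * (⟪Y1, y⟫ + ⟪Y2, y⟫) +
        (‖Y1‖ ^ 2 + ‖Y2‖ ^ 2 + 2 * ⟪Y1, Y2⟫))) := by
  have hAeq : ‖Y1 + Y2‖ ^ 2 = ‖Y1‖ ^ 2 + ‖Y2‖ ^ 2 + 2 * ⟪Y1, Y2⟫ := by
    rw [norm_add_sq_real]; ring
  have hBeq : ‖(2 : ℝ) • y - (Y1 + Y2)‖ ^ 2 =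
      4 * ‖y‖ ^ 2 - 4 * (⟪Y1, y⟫ + ⟪Y2, y⟫) + (‖Y1‖ ^ 2 + ‖Y2‖ ^ 2 + 2 * ⟪Y1, Y2⟫) := by
    rw [norm_sub_sq_real, hAeq, real_inner_smul_left, inner_add_right, norm_smul,
      Real.norm_of_nonneg (by norm_num : (0 : ℝ) ≤ 2), real_inner_comm Y1 y,
      real_inner_comm Y2 y]
    ring
  have hCeq : ⟪-(Y1 + Y2), (2 : ℝ) • y - (Y1 + Y2)⟫ =
      -2 * (⟪Y1, y⟫ + ⟪Y2, y⟫) + (‖Y1‖ ^ 2 + ‖Y2‖ ^ 2 + 2 * ⟪Y1, Y2⟫) := by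
    rw [inner_neg_left, inner_sub_right, real_inner_smul_right, real_inner_self_eq_norm_sq,
      hAeq, inner_add_left]
    ring
  refine ⟨?_, ?_, ?_⟩
  · rw [← hBeq]; positivity
  · have h1 := abs_real_inner_le_norm (-(Y1 + Y2)) ((2 : ℝ) • y - (Y1 + Y2))
    rw [hCeq, norm_neg] at h1
    have h2 := pow_le_pow_left₀ (abs_nonneg _) h1 2
    rw [sq_abs, mul_pow, hAeq, hBeq] at h2
    exact h2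
  · intro p q
    have h1 := sq_nonneg ‖q • (-(Y1 + Y2)) - p • ((2 : ℝ) • y - (Y1 + Y2))‖
    rw [norm_sub_sq_real, norm_smul, norm_smul, mul_pow, mul_pow, norm_neg, hAeq, hBeq,
      real_inner_smul_left, real_inner_smul_right, hCeq, Real.norm_eq_abs, Real.norm_eq_abs, sq_abs,
      sq_abs] at h1
    linarith

/-- The line with in-plane angle `θ` and orthogonal offset `y` is compatible with the two balls. -/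
structure Feas (X1 X2 h1 h2 r : ℝ) (Y1 Y2 : E) (θ : ℝ) (y : E) : Prop where
  d1 : ‖Y1 - y‖ ≤ r
  d2 : ‖Y2 - y‖ ≤ r
  rho : |(X1 - X2) * cos θ - (h1 - h2) * sin θ| ≤
    √(r ^ 2 - ‖Y1 - y‖ ^ 2) + √(r ^ 2 - ‖Y2 - y‖ ^ 2)
  ord : 0 < (h1 - h2) * ((h1 - h2) * cos θ + (X1 - X2) * sin θ)

/-- The angle part of the midpoint lemma, in real numbers only. -/
lemma mid_trig {DX Dh θ : ℝ} (hθ : |θ| < π)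
    (hord : 0 < Dh * (Dh * cos θ + DX * sin θ)) :
    (2 * (DX * cos (θ / 2) - Dh * sin (θ / 2)) ^ 2 =
      DX ^ 2 + Dh ^ 2 - Dh * (Dh * cos θ + DX * sin θ) + DX * (DX * cos θ - Dh * sin θ)) ∧
    (0 < Dh * (Dh * cos (θ / 2) + DX * sin (θ / 2))) ∧ (θ ≠ 0 → cos θ < 1) := by
  have hθφ : θ = 2 * (θ / 2) := by ring
  have hcosθ : cos θ = 2 * cos (θ / 2) ^ 2 - 1 := by
    conv_lhs => rw [hθφ]
    rw [Real.cos_two_mul]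
  have hsinθ : sin θ = 2 * sin (θ / 2) * cos (θ / 2) := by
    conv_lhs => rw [hθφ]
    rw [Real.sin_two_mul]
  have hC2pos : 0 < cos (θ / 2) := by
    apply Real.cos_pos_of_mem_Ioo
    rw [abs_lt] at hθ
    constructor <;> [linarith [hθ.1]; linarith [hθ.2]]
  refine ⟨?_, ?_, ?_⟩
  · rw [hcosθ, hsinθ]
    linear_combination (2 * Dh ^ 2) * (Real.sin_sq_add_cos_sq (θ / 2))
  · have h1' : 2 * cos (θ / 2) * (Dh * (Dh * cos (θ / 2) + DX * sin (θ / 2))) =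
        Dh ^ 2 + Dh * (Dh * cos θ + DX * sin θ) := by
      rw [hcosθ, hsinθ]; ring
    have h2' : 0 < 2 * cos (θ / 2) * (Dh * (Dh * cos (θ / 2) + DX * sin (θ / 2))) := by
      rw [h1']; nlinarith [sq_nonneg Dh]
    have h3' : 0 < 2 * cos (θ / 2) := by linarith
    exact (mul_pos_iff_of_pos_left h3').1 h2'
  · intro h0
    rw [← Real.cos_zero, ← Real.cos_abs θ]
    exact Real.cos_lt_cos_of_nonneg_of_le_pi le_rfl hθ.le (abs_pos.2 h0)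

lemma mid {X1 X2 h1 h2 r θ : ℝ} {Y1 Y2 y : E} (hr : 0 ≤ r)
    (hr1 : X1 ^ 2 + ‖Y1‖ ^ 2 = r ^ 2) (hr2 : X2 ^ 2 + ‖Y2‖ ^ 2 = r ^ 2)
    (hdis : 4 * r ^ 2 < (X1 - X2) ^ 2 + (h1 - h2) ^ 2 + ‖Y1 - Y2‖ ^ 2)
    (hθ : |θ| < π) (hF : Feas X1 X2 h1 h2 r Y1 Y2 θ y) :
    Feas X1 X2 h1 h2 r Y1 Y2 (θ / 2) ((1 / 2 : ℝ) • y) ∧
    ((θ ≠ 0 ∨ y ≠ 0) → |(X1 - X2) * cos (θ / 2) - (h1 - h2) * sin (θ / 2)| <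
      √(r ^ 2 - ‖Y1 - (1 / 2 : ℝ) • y‖ ^ 2) + √(r ^ 2 - ‖Y2 - (1 / 2 : ℝ) • y‖ ^ 2)) := by
  obtain ⟨hy1, hy2, hρ, hord⟩ := hF
  obtain ⟨hρm2, hordm, hcos1⟩ := mid_trig hθ hord
  have e1 := norm_sub_sq' Y1 y
  have e2 := norm_sub_sq' Y2 y
  have f1 := norm_sub_half_sq Y1 y
  have f2 := norm_sub_half_sq Y2 y
  have hy1' : ‖Y1 - y‖ ^ 2 ≤ r ^ 2 := pow_le_pow_left₀ (norm_nonneg _) hy1 2
  have hy2' : ‖Y2 - y‖ ^ 2 ≤ r ^ 2 := pow_le_pow_left₀ (norm_nonneg _) hy2 2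
  have hm1 : ‖Y1 - (1 / 2 : ℝ) • y‖ ^ 2 ≤ r ^ 2 := by
    nlinarith [sq_nonneg X1, sq_nonneg ‖y‖]
  have hm2 : ‖Y2 - (1 / 2 : ℝ) • y‖ ^ 2 ≤ r ^ 2 := by
    nlinarith [sq_nonneg X2, sq_nonneg ‖y‖]
  have e12 : ‖Y1 - Y2‖ ^ 2 = ‖Y1‖ ^ 2 - 2 * ⟪Y1, Y2⟫ + ‖Y2‖ ^ 2 := norm_sub_sq' Y1 Y2
  rw [e12] at hdis
  have hrot : ((X1 - X2) * cos θ - (h1 - h2) * sin θ) ^ 2 +
      ((h1 - h2) * cos θ + (X1 - X2) * sin θ) ^ 2 = (X1 - X2) ^ 2 + (h1 - h2) ^ 2 := by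
    linear_combination ((X1 - X2) ^ 2 + (h1 - h2) ^ 2) * (Real.sin_sq_add_cos_sq θ)
  have hdot : (X1 - X2) * ((X1 - X2) * cos θ - (h1 - h2) * sin θ) +
      (h1 - h2) * ((h1 - h2) * cos θ + (X1 - X2) * sin θ) =
      ((X1 - X2) ^ 2 + (h1 - h2) ^ 2) * cos θ := by ring
  have ha2 : |X1| ^ 2 = r ^ 2 - ‖Y1‖ ^ 2 := by rw [sq_abs]; linarith
  have hc2 : |X2| ^ 2 = r ^ 2 - ‖Y2‖ ^ 2 := by rw [sq_abs]; linarith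
  have hDX : |X1 - X2| ≤ |X1| + |X2| := abs_sub X1 X2
  -- name the square roots
  have hb2 : √(r ^ 2 - ‖Y1 - y‖ ^ 2) ^ 2 = r ^ 2 - (‖Y1‖ ^ 2 - 2 * ⟪Y1, y⟫ + ‖y‖ ^ 2) := by
    rw [Real.sq_sqrt (sub_nonneg.2 hy1'), e1]
  have hd2 : √(r ^ 2 - ‖Y2 - y‖ ^ 2) ^ 2 = r ^ 2 - (‖Y2‖ ^ 2 - 2 * ⟪Y2, y⟫ + ‖y‖ ^ 2) := by
    rw [Real.sq_sqrt (sub_nonneg.2 hy2'), e2]
  have hm2' : √(r ^ 2 - ‖Y1 - (1 / 2 : ℝ) • y‖ ^ 2) ^ 2 =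
      r ^ 2 - (‖Y1‖ ^ 2 - ⟪Y1, y⟫ + ‖y‖ ^ 2 / 4) := by
    rw [Real.sq_sqrt (sub_nonneg.2 hm1), f1]
  have hn2' : √(r ^ 2 - ‖Y2 - (1 / 2 : ℝ) • y‖ ^ 2) ^ 2 =
      r ^ 2 - (‖Y2‖ ^ 2 - ⟪Y2, y⟫ + ‖y‖ ^ 2 / 4) := by
    rw [Real.sq_sqrt (sub_nonneg.2 hm2), f2]
  have hb0 : 0 ≤ √(r ^ 2 - ‖Y1 - y‖ ^ 2) := Real.sqrt_nonneg _
  have hd0 : 0 ≤ √(r ^ 2 - ‖Y2 - y‖ ^ 2) := Real.sqrt_nonneg _
  have hm0 : 0 ≤ √(r ^ 2 - ‖Y1 - (1 / 2 : ℝ) • y‖ ^ 2) := Real.sqrt_nonneg _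
  have hn0 : 0 ≤ √(r ^ 2 - ‖Y2 - (1 / 2 : ℝ) • y‖ ^ 2) := Real.sqrt_nonneg _
  have hB1 : ‖Y1 - (1 / 2 : ℝ) • y‖ ≤ r := abs_le_of_sq_le_sq' hm1 hr |>.2
  have hB2 : ‖Y2 - (1 / 2 : ℝ) • y‖ ≤ r := abs_le_of_sq_le_sq' hm2 hr |>.2
  have hy0 : y = 0 → ‖y‖ ^ 2 = 0 ∧ ⟪Y1, y⟫ = 0 ∧ ⟪Y2, y⟫ = 0 := by
    intro h; subst h; simp
  have hyW : y ≠ 0 → 0 < ‖y‖ ^ 2 := by
    intro h
    have := norm_pos_iff.2 h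
    positivity
  obtain ⟨i1, i2, i3⟩ := inner_facts Y1 Y2 y
  have i4 := norm_add_sq' Y1 Y2
  clear e1 e2 f1 f2
  suffices H : |(X1 - X2) * cos (θ / 2) - (h1 - h2) * sin (θ / 2)| ≤
      √(r ^ 2 - ‖Y1 - (1 / 2 : ℝ) • y‖ ^ 2) + √(r ^ 2 - ‖Y2 - (1 / 2 : ℝ) • y‖ ^ 2) ∧
      ((θ ≠ 0 ∨ y ≠ 0) → |(X1 - X2) * cos (θ / 2) - (h1 - h2) * sin (θ / 2)| <
      √(r ^ 2 - ‖Y1 - (1 / 2 : ℝ) • y‖ ^ 2) + √(r ^ 2 - ‖Y2 - (1 / 2 : ℝ) • y‖ ^ 2)) from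
    ⟨⟨hB1, hB2, H.1, hordm⟩, H.2⟩
  generalize √(r ^ 2 - ‖Y1 - y‖ ^ 2) = b at hρ hb2 hb0
  generalize √(r ^ 2 - ‖Y2 - y‖ ^ 2) = d at hρ hd2 hd0
  generalize √(r ^ 2 - ‖Y1 - (1 / 2 : ℝ) • y‖ ^ 2) = m at hm0 hm2' ⊢
  generalize √(r ^ 2 - ‖Y2 - (1 / 2 : ℝ) • y‖ ^ 2) = n at hn0 hn2' ⊢
  generalize (X1 - X2) * cos θ - (h1 - h2) * sin θ = ρ1 at hρ hρm2 hrot hdot
  generalize (h1 - h2) * cos θ + (X1 - X2) * sin θ = η1 at hord hρm2 hrot hdot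
  generalize (X1 - X2) * cos (θ / 2) - (h1 - h2) * sin (θ / 2) = ρm at hρm2 ⊢
  have key := mid_alg (abs_nonneg X1) (abs_nonneg X2) hm0 hn0 ha2 hc2 hb2 hd2 hm2' hn2'
    hDX hρ hrot hdis (sq_nonneg _) i1 i2 (i3 _ _) hord
  have hle : ρm ^ 2 ≤ (m + n) ^ 2 := by linarith [key.1]
  refine ⟨?_, ?_⟩
  · exact abs_le_of_sq_le_sq hle (by positivity)
  · intro hne
    have hlt : ρm ^ 2 < (m + n) ^ 2 := by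
      by_cases hy : y = 0
      · have hθ0 : θ ≠ 0 := by
          rcases hne with h | h
          · exact h
          · exact absurd hy h
        obtain ⟨z1, z2, z3⟩ := hy0 hy
        have hba : b = |X1| := by
          have h : b ^ 2 = |X1| ^ 2 := by rw [hb2, ha2, z1, z2]; ring
          exact (pow_left_inj₀ hb0 (abs_nonneg _) two_ne_zero).1 h
        have hdc : d = |X2| := by
          have h : d ^ 2 = |X2| ^ 2 := by rw [hd2, hc2, z1, z3]; ring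
          exact (pow_left_inj₀ hd0 (abs_nonneg _) two_ne_zero).1 h
        have k0 := mid_alg0 (abs_nonneg X1) (abs_nonneg X2) hm0 hn0 ha2 hc2
          (by rw [hm2', z1, z2]; ring) (by rw [hn2', z1, z3]; ring) hDX
          (by rw [hba, hdc] at hρ; exact hρ) hdis i4 (hcos1 hθ0) hdot hord hrot
        linarith
      · linarith [key.2 (hyW hy)]
    exact abs_lt_of_sq_lt_sq hlt (by positivity)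

end Pool.Agent.D0H22.Danz
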