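import Pool.Agent.D0H22.Danz.Key

set_option autoImplicit false

/-!
# Optimal lines, stresses and bases
-/

namespace Pool.Agent.D0H22.Danz

open scoped RealInnerProductSpace Topology
open Real

variable {E : Type*} [NormedAddCommGroup E] [InnerProductSpace ℝ E]

/-- A line (base point `p`, unit direction `u`) at distance at most `r` from every point of `F`,
whose direction orders the points of `F` compatibly with the relation `R`. -/
structure Fe (R : E → E → Prop) (F : Finset E) (r : ℝ) (p u : E) : Prop where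
  unit : ‖u‖ = 1
  near : ∀ c ∈ F, ‖perp u (c - p)‖ ≤ r
  comp : ∀ a ∈ F, ∀ b ∈ F, R a b → ⟪u, a⟫ ≤ ⟪u, b⟫

lemma norm_perp_le {u : E} (hu : ‖u‖ = 1) (z : E) (s : ℝ) : ‖perp u z‖ ≤ ‖z - s • u‖ := by
  have h1 : perp u z = perp u (z - s • u) := by
    rw [perp_sub, perp_smul, perp_self hu, smul_zero, sub_zero]
  rw [h1]
  have h2 := norm_perp_sq hu (z - s • u)
  refine (abs_le_of_sq_le_sq' ?_ (norm_nonneg _)).2
  rw [h2]
  linarith [sq_nonneg ⟪u, z - s • u⟫]

/-- Two points hit by the same line are separated along the direction of the line. -/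
lemma hit_sep {u p a b : E} {r : ℝ} (hu : ‖u‖ = 1) (hr1 : r ≤ 1)
    (ha : ‖perp u (a - p)‖ ≤ r) (hb : ‖perp u (b - p)‖ ≤ r) (hab : 2 < ‖a - b‖) :
    ⟪u, a - b⟫ ≠ 0 := by
  intro h0
  have hr0 : 0 ≤ r := le_trans (norm_nonneg _) ha
  have h1 := norm_perp_sq hu (a - b)
  rw [h0] at h1
  have h2 : perp u (a - b) = perp u (a - p) - perp u (b - p) := by
    rw [← perp_sub]; congr 1; abel
  have h3 : ‖perp u (a - b)‖ ≤ 2 := by
    rw [h2]
    refine le_trans (norm_sub_le _ _) ?_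
    linarith
  have h4 : ‖perp u (a - b)‖ ^ 2 ≤ 2 ^ 2 := pow_le_pow_left₀ (norm_nonneg _) h3 2
  have h5 : (2 : ℝ) ^ 2 < ‖a - b‖ ^ 2 := pow_lt_pow_left₀ hab (by norm_num) two_ne_zero
  nlinarith

lemma continuous_perp {X : Type*} [TopologicalSpace X] {f g : X → E} (hf : Continuous f)
    (hg : Continuous g) : Continuous fun x => perp (f x) (g x) := by
  unfold perp
  fun_prop

/-- Existence of an optimal line. -/
theorem exists_opt [FiniteDimensional ℝ E] {R : E → E → Prop} {F : Finset E} (hF : F.Nonempty)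
    (hfeas : ∃ p u, Fe R F 1 p u) :
    ∃ r p u, 0 ≤ r ∧ r ≤ 1 ∧ Fe R F r p u ∧ ∀ r' p' u', Fe R F r' p' u' → r ≤ r' := by
  classical
  obtain ⟨c0, hc0⟩ := hF
  -- moving the base point
  have hmove : ∀ {r p u}, Fe R F r p u → r ≤ 1 →
      Fe R F r (p + ⟪u, c0 - p⟫ • u) u ∧ ‖c0 - (p + ⟪u, c0 - p⟫ • u)‖ ≤ 1 := by
    intro r p u h hr
    have e1 : ∀ c, perp u (c - (p + ⟪u, c0 - p⟫ • u)) = perp u (c - p) := by
      intro c
      have : c - (p + ⟪u, c0 - p⟫ • u) = (c - p) - ⟪u, c0 - p⟫ • u := by abel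
      rw [this, perp_sub, perp_smul, perp_self h.unit, smul_zero, sub_zero]
    refine ⟨⟨h.unit, fun c hc => by rw [e1]; exact h.near c hc, h.comp⟩, ?_⟩
    have : c0 - (p + ⟪u, c0 - p⟫ • u) = perp u (c0 - p) := by unfold perp; abel
    rw [this]
    exact le_trans (h.near c0 hc0) hr
  let K : Set (ℝ × E × E) := {x | Fe R F x.1 x.2.1 x.2.2}
  have hKc : IsClosed K := by
    have : K = {x : ℝ × E × E | ‖x.2.2‖ = 1} ∩
        ((⋂ c ∈ F, {x : ℝ × E × E | ‖perp x.2.2 (c - x.2.1)‖ ≤ x.1}) ∩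
        (⋂ a ∈ F, ⋂ b ∈ F, ⋂ _ : R a b, {x : ℝ × E × E | ⟪x.2.2, a⟫ ≤ ⟪x.2.2, b⟫})) := by
      ext x
      simp only [K, Set.mem_ofPred_eq, Set.mem_inter_iff, Set.mem_iInter]
      constructor
      · intro h; exact ⟨h.unit, h.near, h.comp⟩
      · rintro ⟨h1, h2, h3⟩; exact ⟨h1, h2, h3⟩
    rw [this]
    refine IsClosed.inter ?_ (IsClosed.inter ?_ ?_)
    · exact isClosed_eq (by fun_prop) continuous_const
    · refine isClosed_biInter fun c _ => ?_
      refine isClosed_le ?_ continuous_fst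
      exact (continuous_perp (by fun_prop) (by fun_prop)).norm
    · refine isClosed_biInter fun a _ => isClosed_biInter fun b _ => isClosed_iInter fun _ => ?_
      exact isClosed_le (by fun_prop) (by fun_prop)
  let C : Set (ℝ × E × E) := Set.Icc 0 1 ×ˢ (Metric.closedBall c0 1 ×ˢ Metric.closedBall 0 1)
  have hCc : IsCompact C :=
    isCompact_Icc.prod ((isCompact_closedBall c0 1).prod (isCompact_closedBall 0 1))
  have hKC : IsCompact (C ∩ K) := hCc.inter_right hKc
  have hmem : ∀ {r p u}, Fe R F r p u → 0 ≤ r → r ≤ 1 →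
      ((r, p + ⟪u, c0 - p⟫ • u, u) : ℝ × E × E) ∈ C ∩ K := by
    intro r p u h hr0 hr
    obtain ⟨h1, h2⟩ := hmove h hr
    refine ⟨⟨⟨hr0, hr⟩, ?_, ?_⟩, h1⟩
    · rw [Metric.mem_closedBall, dist_comm, dist_eq_norm]; exact h2
    · rw [Metric.mem_closedBall, dist_zero_right]; exact h.unit.le
  have hne : (C ∩ K).Nonempty := by
    obtain ⟨p, u, h⟩ := hfeas
    exact ⟨_, hmem h zero_le_one le_rfl⟩
  obtain ⟨x, hx, hmin⟩ := hKC.exists_isMinOn hne (continuous_fst.continuousOn)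
  refine ⟨x.1, x.2.1, x.2.2, hx.1.1.1, hx.1.1.2, hx.2, ?_⟩
  intro r' p' u' h'
  by_cases hr' : r' ≤ 1
  · have hr0 : 0 ≤ r' := le_trans (norm_nonneg _) (h'.near c0 hc0)
    exact hmin (hmem h' hr0 hr')
  · push Not at hr'
    exact le_trans hx.1.1.2 hr'.le

/-- An optimal line of positive radius carries a stress. -/
theorem exists_stress [FiniteDimensional ℝ E] {R : E → E → Prop} {F : Finset E} {r : ℝ} {p u : E}
    (hr : 0 < r) (hr1 : r ≤ 1) (hF : Fe R F r p u)
    (hdis : ∀ a ∈ F, ∀ b ∈ F, a ≠ b → 2 < ‖a - b‖)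
    (hopt : ∀ r' p' u', Fe R F r' p' u' → r ≤ r') :
    (0 : E × E) ∈ convexHull ℝ ((fun c => (perp u (c - p), ⟪u, c - p⟫ • perp u (c - p))) ''
      {c | c ∈ F ∧ ‖perp u (c - p)‖ = r}) := by
  classical
  by_contra hcon
  have hfin : ((fun c => (perp u (c - p), ⟪u, c - p⟫ • perp u (c - p))) ''
      {c | c ∈ F ∧ ‖perp u (c - p)‖ = r}).Finite :=
    (F.finite_toSet.subset fun c hc => hc.1).image _
  obtain ⟨f, v, hf0, hfv⟩ := geometric_hahn_banach_point_closed (convex_convexHull ℝ _)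
    (hfin.isCompact_convexHull (𝕜 := ℝ)).isClosed hcon
  rw [map_zero] at hf0
  have hu := hF.unit
  -- Riesz representation of the two components
  obtain ⟨a, ha⟩ : ∃ a : E, ∀ z, ⟪a, z⟫ = f (z, 0) :=
    ⟨(InnerProductSpace.toDual ℝ E).symm (f.comp (ContinuousLinearMap.inl ℝ E E)), fun z => by
      rw [InnerProductSpace.toDual_symm_apply]; rfl⟩
  obtain ⟨b, hb⟩ : ∃ b : E, ∀ z, ⟪b, z⟫ = f (0, z) :=
    ⟨(InnerProductSpace.toDual ℝ E).symm (f.comp (ContinuousLinearMap.inr ℝ E E)), fun z => by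
      rw [InnerProductSpace.toDual_symm_apply]; rfl⟩
  have hfab : ∀ z w, f (z, w) = ⟪a, z⟫ + ⟪b, w⟫ := by
    intro z w
    rw [ha, hb, ← map_add]
    simp
  have hpos : ∀ c ∈ F, ‖perp u (c - p)‖ = r →
      0 < ⟪perp u (c - p), perp u a + ⟪u, c - p⟫ • perp u b⟫ := by
    intro c hc hcr
    have h1 := hfv _ (subset_convexHull ℝ _ ⟨c, ⟨hc, hcr⟩, rfl⟩)
    rw [hfab, real_inner_smul_right] at h1
    have h2 : ∀ z, ⟪perp u (c - p), perp u z⟫ = ⟪z, perp u (c - p)⟫ := by
      intro z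
      have : ⟪perp u (c - p), u⟫ = 0 := by rw [real_inner_comm]; exact inner_perp hu _
      conv_lhs => rw [show perp u z = z - ⟪u, z⟫ • u from rfl]
      rw [inner_sub_right, real_inner_smul_right, this, mul_zero, sub_zero, real_inner_comm]
    rw [inner_add_right, real_inner_smul_right, h2, h2]
    linarith
  -- the perturbation
  let b' := perp u b
  let a' := perp u a
  let U : ℝ → E := fun t => (‖u + t • b'‖)⁻¹ • (u + t • b')
  have hub : ⟪u, b'⟫ = 0 := inner_perp hu b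
  have hnpos : ∀ t : ℝ, 0 < ‖u + t • b'‖ := by
    intro t
    have h1 : 1 ≤ ‖u + t • b'‖ ^ 2 := by
      rw [norm_add_sq_real, real_inner_smul_right, hub, hu]
      nlinarith [sq_nonneg ‖t • b'‖]
    by_contra h2
    have h3 : ‖u + t • b'‖ = 0 := le_antisymm (not_lt.1 h2) (norm_nonneg _)
    rw [h3] at h1
    norm_num at h1
  have hUunit : ∀ t, ‖U t‖ = 1 := by
    intro t
    simp only [U]
    rw [norm_smul, norm_inv, norm_norm, inv_mul_cancel₀ (hnpos t).ne']
  have hbound : ∀ t c, ‖perp (U t) (c - (p + t • a'))‖ ≤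
      ‖perp u (c - p) - t • (a' + ⟪u, c - p⟫ • b')‖ := by
    intro t c
    refine le_trans (norm_perp_le (hUunit t) _ (⟪u, c - p⟫ * ‖u + t • b'‖)) (le_of_eq ?_)
    congr 1
    have h1 : (⟪u, c - p⟫ * ‖u + t • b'‖) • U t = ⟪u, c - p⟫ • (u + t • b') := by
      simp only [U]
      rw [smul_smul, mul_assoc, mul_inv_cancel₀ (hnpos t).ne', mul_one]
    rw [h1]
    unfold perp
    rw [smul_add, smul_add, smul_smul, smul_smul, mul_comm t]
    abel
  -- eventually all distances are smaller than r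
  have hev1 : ∀ c ∈ F, ∀ᶠ t in 𝓝[>] (0 : ℝ), ‖perp (U t) (c - (p + t • a'))‖ < r := by
    intro c hc
    obtain ⟨w, hw⟩ : ∃ w, w = a' + ⟪u, c - p⟫ • b' := ⟨_, rfl⟩
    suffices h : ∀ᶠ t in 𝓝[>] (0 : ℝ), ‖perp u (c - p) - t • w‖ < r by
      filter_upwards [h] with t ht
      refine lt_of_le_of_lt (hbound t c) ?_
      rw [← hw]; exact ht
    rcases lt_or_eq_of_le (hF.near c hc) with hlt | heq
    · have hcont : Continuous fun t : ℝ => ‖perp u (c - p) - t • w‖ := by fun_prop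
      have h0 : ‖perp u (c - p) - (0 : ℝ) • w‖ < r := by rw [zero_smul, sub_zero]; exact hlt
      exact ((hcont.tendsto 0).eventually_lt_const h0).filter_mono nhdsWithin_le_nhds
    · have hp := hpos c hc heq
      have hp' : 0 < ⟪perp u (c - p), w⟫ := by rw [hw]; exact hp
      have hcont : Continuous fun t : ℝ => -2 * ⟪perp u (c - p), w⟫ + t * ‖w‖ ^ 2 := by fun_prop
      have h0 : -2 * ⟪perp u (c - p), w⟫ + (0 : ℝ) * ‖w‖ ^ 2 < 0 := by linarith
      have h1 := ((hcont.tendsto 0).eventually_lt_const h0).filter_mono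
        (nhdsWithin_le_nhds (s := Set.Ioi 0))
      filter_upwards [h1, self_mem_nhdsWithin] with t ht ht0
      have ht0' : 0 < t := ht0
      have h2 : ‖perp u (c - p) - t • w‖ ^ 2 < r ^ 2 := by
        rw [norm_sub_sq_real, real_inner_smul_right, norm_smul, mul_pow, Real.norm_eq_abs, sq_abs,
          heq]
        nlinarith
      exact lt_of_pow_lt_pow_left₀ 2 hr.le h2
  have hev2 : ∀ᶠ t in 𝓝[>] (0 : ℝ), ∀ c ∈ F, ‖perp (U t) (c - (p + t • a'))‖ < r :=
    (Filter.eventually_all_finset F).2 hev1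
  have hev3 : ∀ᶠ t in 𝓝[>] (0 : ℝ), ∀ x ∈ F, ∀ y ∈ F, R x y → ⟪U t, x⟫ ≤ ⟪U t, y⟫ := by
    refine (Filter.eventually_all_finset F).2 fun x hx => (Filter.eventually_all_finset F).2
      fun y hy => ?_
    by_cases hR : R x y
    · by_cases hxy : x = y
      · subst hxy
        exact Filter.Eventually.of_forall fun t _ => le_rfl
      · have h1 := hF.comp x hx y hy hR
        have h2 := hit_sep hu hr1 (hF.near y hy) (hF.near x hx) (hdis y hy x hx (Ne.symm hxy))
        have h3 : 0 < ⟪u, y - x⟫ := by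
          rw [inner_sub_right] at h2 ⊢
          exact lt_of_le_of_ne (by linarith) (Ne.symm h2)
        have hcont : Continuous fun t : ℝ => ⟪u + t • b', y - x⟫ := by fun_prop
        have h0 : 0 < ⟪u + (0 : ℝ) • b', y - x⟫ := by rw [zero_smul, add_zero]; exact h3
        have h4 := ((hcont.tendsto 0).eventually_const_lt h0).filter_mono
          (nhdsWithin_le_nhds (s := Set.Ioi 0))
        filter_upwards [h4] with t ht _
        have h5 : 0 ≤ ⟪U t, y - x⟫ := by
          simp only [U]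
          rw [real_inner_smul_left]
          exact mul_nonneg (inv_nonneg.2 (norm_nonneg _)) ht.le
        rw [inner_sub_right] at h5
        linarith
    · exact Filter.Eventually.of_forall fun t h => absurd h hR
  obtain ⟨t, ht1, ht2⟩ := (hev2.and hev3).exists
  -- a smaller radius
  have hev4 : ∀ᶠ r' in 𝓝[<] r, ∀ c ∈ F, ‖perp (U t) (c - (p + t • a'))‖ ≤ r' := by
    refine (Filter.eventually_all_finset F).2 fun c hc => ?_
    filter_upwards [Ioo_mem_nhdsLT (ht1 c hc)] with r' hr'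
    exact hr'.1.le
  obtain ⟨r', h1, h2⟩ := (hev4.and self_mem_nhdsWithin).exists
  exact absurd (hopt r' _ _ ⟨hUunit t, h1, ht2⟩) (not_le.2 h2)

end Pool.Agent.D0H22.Danz
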