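import Pool.Agent.D0H22.Danz.Mid

set_option autoImplicit false

/-!
# The first order inequality for a pair of balls
-/

namespace Pool.Agent.D0H22.Danz

open scoped RealInnerProductSpace
open Real

variable {E : Type*} [NormedAddCommGroup E] [InnerProductSpace ℝ E]

lemma feas_iter {X1 X2 h1 h2 r θ : ℝ} {Y1 Y2 y : E} (hr : 0 ≤ r)
    (hr1 : X1 ^ 2 + ‖Y1‖ ^ 2 = r ^ 2) (hr2 : X2 ^ 2 + ‖Y2‖ ^ 2 = r ^ 2)
    (hdis : 4 * r ^ 2 < (X1 - X2) ^ 2 + (h1 - h2) ^ 2 + ‖Y1 - Y2‖ ^ 2)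
    (hθ : |θ| < π) (hF : Feas X1 X2 h1 h2 r Y1 Y2 θ y) (k : ℕ) :
    Feas X1 X2 h1 h2 r Y1 Y2 ((1 / 2 : ℝ) ^ k * θ) ((1 / 2 : ℝ) ^ k • y) := by
  induction k with
  | zero => simpa using hF
  | succ k ih =>
    have h1' : |(1 / 2 : ℝ) ^ k * θ| < π := by
      rw [abs_mul, abs_of_nonneg (by positivity)]
      have h2 : (1 / 2 : ℝ) ^ k ≤ 1 := pow_le_one₀ (by norm_num) (by norm_num)
      calc (1 / 2 : ℝ) ^ k * |θ| ≤ 1 * |θ| := mul_le_mul_of_nonneg_right h2 (abs_nonneg _)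
        _ < π := by rw [one_mul]; exact hθ
    have h3 := (mid hr hr1 hr2 hdis h1' ih).1
    have e1 : (1 / 2 : ℝ) ^ (k + 1) * θ = (1 / 2 : ℝ) ^ k * θ / 2 := by ring
    have e2 : (1 / 2 : ℝ) ^ (k + 1) • y = (1 / 2 : ℝ) • ((1 / 2 : ℝ) ^ k • y) := by
      rw [smul_smul]; congr 1; ring
    rw [e1, e2]
    exact h3

/-- Derivative of one square root term. -/
lemma hasDerivAt_sqrt_term {X r : ℝ} {Y y : E} (hX : X ≠ 0) (h : X ^ 2 + ‖Y‖ ^ 2 = r ^ 2) :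
    HasDerivAt (fun s : ℝ => √(r ^ 2 - ‖Y - s • y‖ ^ 2)) (⟪Y, y⟫ / |X|) 0 := by
  have e : (fun s : ℝ => √(r ^ 2 - ‖Y - s • y‖ ^ 2)) =
      fun s : ℝ => √(X ^ 2 + 2 * s * ⟪Y, y⟫ - s ^ 2 * ‖y‖ ^ 2) := by
    funext s
    congr 1
    rw [norm_sub_sq_real, real_inner_smul_right, norm_smul, mul_pow, Real.norm_eq_abs, sq_abs, ← h]
    ring
  rw [e]
  have h1 : HasDerivAt (fun s : ℝ => X ^ 2 + 2 * s * ⟪Y, y⟫ - s ^ 2 * ‖y‖ ^ 2)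
      (2 * ⟪Y, y⟫) 0 := by
    have a1 : HasDerivAt (fun s : ℝ => X ^ 2 + 2 * s * ⟪Y, y⟫) (2 * 1 * ⟪Y, y⟫) 0 :=
      (((hasDerivAt_id (0 : ℝ)).const_mul 2).mul_const _).const_add _
    have a2 : HasDerivAt (fun s : ℝ => s ^ 2 * ‖y‖ ^ 2) ((2 * (0 : ℝ) ^ (2 - 1) * 1) * ‖y‖ ^ 2) 0 :=
      ((hasDerivAt_id (0 : ℝ)).pow 2).mul_const _
    refine (a1.sub a2).congr_deriv ?_
    ring
  have h2 := h1.sqrt (by simp [hX])
  convert h2 using 1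
  have : √(X ^ 2 + 2 * 0 * ⟪Y, y⟫ - 0 ^ 2 * ‖y‖ ^ 2) = |X| := by
    rw [← Real.sqrt_sq_eq_abs]; congr 1; ring
  rw [this]
  have hX' : |X| ≠ 0 := abs_ne_zero.2 hX
  field_simp

lemma si_le {X1 X2 h1 h2 r θ : ℝ} {Y1 Y2 y : E} (hr : 0 ≤ r) (hX1 : 0 < X1) (hX2 : X2 < 0)
    (hr1 : X1 ^ 2 + ‖Y1‖ ^ 2 = r ^ 2) (hr2 : X2 ^ 2 + ‖Y2‖ ^ 2 = r ^ 2)
    (hdis : 4 * r ^ 2 < (X1 - X2) ^ 2 + (h1 - h2) ^ 2 + ‖Y1 - Y2‖ ^ 2)
    (hθ : |θ| < π) (hF : Feas X1 X2 h1 h2 r Y1 Y2 θ y) :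
    0 ≤ θ * (h1 - h2) + ⟪Y1, y⟫ / X1 - ⟪Y2, y⟫ / X2 := by
  have d1 := hasDerivAt_sqrt_term (y := y) hX1.ne' hr1
  have d2 := hasDerivAt_sqrt_term (y := y) hX2.ne hr2
  have d3 : HasDerivAt (fun s : ℝ => (X1 - X2) * cos (s * θ) - (h1 - h2) * sin (s * θ))
      (-((h1 - h2) * θ)) 0 := by
    have b0 : HasDerivAt (fun s : ℝ => s * θ) (1 * θ) 0 := (hasDerivAt_id (0 : ℝ)).mul_const θ
    have b1 := (b0.cos).const_mul (X1 - X2)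
    have b2 := (b0.sin).const_mul (h1 - h2)
    refine (b1.sub b2).congr_deriv ?_
    simp
  have d4 := (d1.add d2).sub d3
  have hlim := d4.tendsto_slope
  set A : ℝ → ℝ := fun s => √(r ^ 2 - ‖Y1 - s • y‖ ^ 2) + √(r ^ 2 - ‖Y2 - s • y‖ ^ 2) -
    ((X1 - X2) * cos (s * θ) - (h1 - h2) * sin (s * θ)) with hA
  have hA0 : A 0 = 0 := by
    rw [hA]
    simp only [zero_smul, sub_zero, zero_mul, cos_zero, sin_zero, mul_one, mul_zero]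
    have e1 : r ^ 2 - ‖Y1‖ ^ 2 = X1 ^ 2 := by linarith
    have e2 : r ^ 2 - ‖Y2‖ ^ 2 = (-X2) ^ 2 := by rw [neg_sq]; linarith
    rw [e1, e2, Real.sqrt_sq hX1.le, Real.sqrt_sq (by linarith)]
    ring
  have hseq : Filter.Tendsto (fun k : ℕ => (1 / 2 : ℝ) ^ k) Filter.atTop
      (nhdsWithin 0 {0}ᶜ) := by
    rw [tendsto_nhdsWithin_iff]
    constructor
    · exact tendsto_pow_atTop_nhds_zero_of_lt_one (by norm_num) (by norm_num)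
    · filter_upwards with k
      simp
  have hlim2 := hlim.comp hseq
  have hge : 0 ≤ ⟪Y1, y⟫ / |X1| + ⟪Y2, y⟫ / |X2| - -((h1 - h2) * θ) := by
    refine ge_of_tendsto' hlim2 ?_
    intro k
    have hF' := feas_iter hr hr1 hr2 hdis hθ hF k
    have hpos : (0 : ℝ) < (1 / 2 : ℝ) ^ k := by positivity
    have hAk : 0 ≤ A ((1 / 2 : ℝ) ^ k) := by
      rw [hA]
      have := le_trans (le_abs_self _) hF'.rho
      simp only
      linarith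
    simp only [Function.comp_apply, slope_def_field]
    have e0 : ∀ s : ℝ, (((fun s : ℝ => √(r ^ 2 - ‖Y1 - s • y‖ ^ 2)) +
        fun s : ℝ => √(r ^ 2 - ‖Y2 - s • y‖ ^ 2)) -
        fun s : ℝ => (X1 - X2) * cos (s * θ) - (h1 - h2) * sin (s * θ)) s = A s := fun s => rfl
    rw [e0, e0, hA0, sub_zero, sub_zero]
    exact div_nonneg hAk hpos.le
  rw [abs_of_pos hX1, abs_of_neg hX2, div_neg] at hge
  linarith

lemma si_lt {X1 X2 h1 h2 r θ : ℝ} {Y1 Y2 y : E} (hr : 0 ≤ r) (hX1 : 0 < X1) (hX2 : X2 < 0)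
    (hr1 : X1 ^ 2 + ‖Y1‖ ^ 2 = r ^ 2) (hr2 : X2 ^ 2 + ‖Y2‖ ^ 2 = r ^ 2)
    (hdis : 4 * r ^ 2 < (X1 - X2) ^ 2 + (h1 - h2) ^ 2 + ‖Y1 - Y2‖ ^ 2)
    (hθ : |θ| < π) (hF : Feas X1 X2 h1 h2 r Y1 Y2 θ y) (hne : θ ≠ 0 ∨ y ≠ 0) :
    0 < θ * (h1 - h2) + ⟪Y1, y⟫ / X1 - ⟪Y2, y⟫ / X2 := by
  obtain ⟨hM, hS⟩ := mid hr hr1 hr2 hdis hθ hF
  have hS := hS hne
  have hh : h1 - h2 ≠ 0 := by
    intro h
    have := hM.ord
    rw [h] at this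
    simp at this
  -- perturb the angle
  have hev : ∀ᶠ t in nhds (θ / 2), Feas X1 X2 h1 h2 r Y1 Y2 t ((1 / 2 : ℝ) • y) ∧ |t| < π := by
    have c1 : Continuous fun t : ℝ => |(X1 - X2) * cos t - (h1 - h2) * sin t| := by fun_prop
    have c2 : Continuous fun t : ℝ => (h1 - h2) * ((h1 - h2) * cos t + (X1 - X2) * sin t) := by
      fun_prop
    have c3 : Continuous fun t : ℝ => |t| := continuous_abs
    have hθ2 : |θ / 2| < π := by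
      rw [abs_div, abs_of_pos (by norm_num : (0 : ℝ) < 2)]
      linarith [abs_nonneg θ]
    filter_upwards [(c1.tendsto (θ / 2)).eventually_lt_const hS,
      (c2.tendsto (θ / 2)).eventually_const_lt hM.ord,
      (c3.tendsto (θ / 2)).eventually_lt_const hθ2] with t ht1 ht2 ht3
    exact ⟨⟨hM.d1, hM.d2, ht1.le, ht2⟩, ht3⟩
  obtain ⟨δ, hδ, hball⟩ := Metric.eventually_nhds_iff.1 hev
  have key : ∀ t : ℝ, |t| < δ → 0 ≤ (θ / 2 + t) * (h1 - h2) +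
      (1 / 2) * (⟪Y1, y⟫ / X1 - ⟪Y2, y⟫ / X2) := by
    intro t ht
    obtain ⟨g1, g2⟩ := hball (y := θ / 2 + t) (by simpa [Real.dist_eq] using ht)
    have := si_le hr hX1 hX2 hr1 hr2 hdis g2 g1
    rw [real_inner_smul_right, real_inner_smul_right] at this
    have e : (1 / 2 : ℝ) * ⟪Y1, y⟫ / X1 - 1 / 2 * ⟪Y2, y⟫ / X2 =
      (1 / 2) * (⟪Y1, y⟫ / X1 - ⟪Y2, y⟫ / X2) := by ring
    linarith
  have k1 := key (δ / 2) (by rw [abs_of_pos (by linarith)]; linarith)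
  have k2 := key (-(δ / 2)) (by rw [abs_neg, abs_of_pos (by linarith)]; linarith)
  rcases lt_or_gt_of_ne hh with h | h
  · have : δ / 2 * (h1 - h2) < 0 := mul_neg_of_pos_of_neg (by linarith) h
    linarith
  · have : 0 < δ / 2 * (h1 - h2) := mul_pos (by linarith) h
    linarith

end Pool.Agent.D0H22.Danz
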