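import Pool.Agent.D0H22.Danz.HPrime
import Pool.Agent.D0H22.Danz.GP2
import Pool.Agent.D0H22.Danz.Comb

set_option autoImplicit false

/-!
# The upper bound `4 d - 1` for the transversal Helly number of disjoint unit balls
-/

namespace Pool.Agent.D0H22.Danz

open scoped RealInnerProductSpace Topology
open Real Module

variable {E : Type*} [NormedAddCommGroup E] [InnerProductSpace ℝ E]

/-- The empty relation. -/
def noR (E : Type*) : E → E → Prop := fun _ _ => False

/-- The constants, depending on whether the dimension is two or larger. -/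
structure Consts (E : Type*) [NormedAddCommGroup E] [InnerProductSpace ℝ E] (n : ℕ)
    (ρ κ0 : ℝ) (m : ℕ) : Prop where
  triple : Triple E ρ
  one_lt : 1 < ρ
  half : 1 / 2 ≤ κ0
  ltone : κ0 < 1
  card : 2 * m + 3 ≤ n
  big : 4 * (1 + κ0) ≤ ((m + 1 : ℝ) * ρ) ^ 2 * (1 - κ0)
  c1 : 4 * (1 - κ0 ^ 2) ≤ ρ ^ 2
  c2 : 1 - κ0 ≤ (ρ - 1) ^ 2 * (1 + κ0)

lemma exists_consts [FiniteDimensional ℝ E] {d : ℕ} (hd : 2 ≤ d) (hE : finrank ℝ E = d) :
    ∃ ρ κ0 m, Consts E (4 * d - 2) ρ κ0 m := by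
  by_cases h2 : d = 2
  · subst h2
    have h3 : (√3 : ℝ) ^ 2 = 3 := Real.sq_sqrt (by norm_num)
    have h4 : (√3 : ℝ) ≤ 11 / 6 := by
      rw [Real.sqrt_le_left (by norm_num)]; norm_num
    have h5 : (1 : ℝ) < √3 := by
      rw [Real.lt_sqrt (by norm_num)]; norm_num
    refine ⟨√3, 1 / 2, 1, triple_three hE, h5, by norm_num, by norm_num, by norm_num, ?_, ?_, ?_⟩
    · rw [mul_pow, h3]; norm_num
    · rw [h3]; norm_num
    · nlinarith
  · have h3 : (√2 : ℝ) ^ 2 = 2 := Real.sq_sqrt (by norm_num)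
    have h4 : (√2 : ℝ) ≤ 23 / 16 := by
      rw [Real.sqrt_le_left (by norm_num)]; norm_num
    have h5 : (1 : ℝ) < √2 := by
      rw [Real.lt_sqrt (by norm_num)]; norm_num
    refine ⟨√2, 7 / 9, 3, triple_two, h5, by norm_num, by norm_num, by omega, ?_, ?_, ?_⟩
    · rw [mul_pow, h3]; norm_num
    · rw [h3]; norm_num
    · nlinarith

lemma close_of_kappa {n m : ℕ} {ρ κ0 : ℝ} (hc : Consts E n ρ κ0 m) {u u' : E} (hu : ‖u‖ = 1)
    (hu' : ‖u'‖ = 1) (h : κ0 < ⟪u, u'⟫) : ∃ sn, Close ρ u u' sn := by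
  have h1 := (abs_le.1 (inner_abs_le_one hu hu')).2
  have hhalf := hc.half
  have hρ := hc.one_lt
  have hc1 := hc.c1
  have hc2 := hc.c2
  generalize hκ : ⟪u, u'⟫ = κ at *
  have hs : 0 ≤ 1 - κ ^ 2 := by nlinarith
  refine ⟨√(1 - κ ^ 2), hρ, hu, hu', by rw [hκ]; linarith, Real.sqrt_nonneg _, ?_, ?_, ?_⟩
  · rw [hκ]; exact Real.sq_sqrt hs
  · have h2 : √(1 - κ ^ 2) ≤ ρ / 2 := by
      rw [Real.sqrt_le_left (by linarith)]
      nlinarith
    linarith
  · rw [hκ]
    rw [Real.sqrt_le_left (mul_nonneg (by linarith) (by linarith))]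
    have h3 : (1 - κ) ≤ (ρ - 1) ^ 2 * (1 + κ) := by
      have : (ρ - 1) ^ 2 * (1 + κ0) ≤ (ρ - 1) ^ 2 * (1 + κ) :=
        mul_le_mul_of_nonneg_left (by linarith) (sq_nonneg _)
      linarith
    have h4 : (1 - κ) * (1 + κ) ≤ (ρ - 1) ^ 2 * (1 + κ) * (1 + κ) :=
      mul_le_mul_of_nonneg_right h3 (by linarith)
    nlinarith

lemma big_kappa {n m : ℕ} {ρ κ0 : ℝ} (hc : Consts E n ρ κ0 m) {u u' p p' : E} (hu : ‖u‖ = 1)
    (hu' : ‖u'‖ = 1) {G : Finset E} (hG : ∀ c ∈ G, ‖perp u (c - p)‖ ≤ 1)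
    (hG' : ∀ c ∈ G, ‖perp u' (c - p')‖ ≤ 1) (hdis : ∀ a ∈ G, ∀ b ∈ G, a ≠ b → 2 < ‖a - b‖)
    (hn : n ≤ G.card) : κ0 < |⟪u, u'⟫| := by
  obtain ⟨a, ha, b, hb, hab⟩ := range_lemma hc.triple hu m G hG hdis (hc.card.trans hn)
  have hρ := hc.one_lt
  exact kappa_bound hu hu' (hG a ha) (hG b hb) (hG' a ha) (hG' b hb)
    (by positivity) hab hc.ltone hc.big

lemma rigid_neg {D : Finset E} {r : ℝ} {p u : E} (h : Rigid D r p u) : Rigid D r p (-u) := by
  intro q u' hu' hq hord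
  have h1 := h q (-u') (by rw [norm_neg]; exact hu') (fun c hc => by rw [perp_neg]; exact hq c hc)
    (fun c hc c' hc' hcc => by
      have := hord c hc c' hc' hcc
      rw [inner_neg_left] at this ⊢
      linarith)
  refine ⟨by rw [← h1.1, neg_neg], by rw [perp_neg]; exact h1.2⟩

/-- Two vectors close to a third one are not nearly opposite. -/
lemma three_units {a b c : E} (ha : ‖a‖ = 1) (hb : ‖b‖ = 1) (hc : ‖c‖ = 1)
    (h1 : 1 / 2 < ⟪b, a⟫) (h2 : 1 / 2 < ⟪b, c⟫) : -(1 / 2) < ⟪a, c⟫ := by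
  have e := inner_decomp hb a c
  have n1 := norm_perp_sq hb a
  have n2 := norm_perp_sq hb c
  rw [ha] at n1
  rw [hc] at n2
  have cs := abs_real_inner_le_norm (perp b a) (perp b c)
  have cs' := (abs_le.1 cs).1
  have g1 : ‖perp b a‖ ^ 2 < 3 / 4 := by nlinarith
  have g2 : ‖perp b c‖ ^ 2 < 3 / 4 := by nlinarith
  have g3 : ‖perp b a‖ * ‖perp b c‖ < 3 / 4 := by
    nlinarith [sq_nonneg (‖perp b a‖ - ‖perp b c‖)]
  have g4 : 1 / 4 < ⟪b, a⟫ * ⟪b, c⟫ := by nlinarith
  linarith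

/-- The transversal Helly number of disjoint unit balls in dimension `d ≥ 2` is at most `4d-1`. -/
theorem upper [FiniteDimensional ℝ E] {d : ℕ} (hd : 2 ≤ d) (hE : finrank ℝ E = d)
    (S : Finset E) (hdis : ∀ a ∈ S, ∀ b ∈ S, a ≠ b → 2 < ‖a - b‖)
    (hT : ∀ T ⊆ S, T.card ≤ 4 * d - 1 → ∃ p u, Fe (noR E) T 1 p u) :
    ∃ p u, Fe (noR E) S 1 p u := by
  classical
  by_contra hno
  -- a minimal subfamily without transversal
  have hne : (S.powerset.filter fun C => ¬ ∃ p u, Fe (noR E) C 1 p u).Nonempty :=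
    ⟨S, by simp only [Finset.mem_filter, Finset.mem_powerset]; exact ⟨subset_rfl, hno⟩⟩
  obtain ⟨C, hC, hmin⟩ := Finset.exists_min_image _ (fun C => C.card) hne
  rw [Finset.mem_filter, Finset.mem_powerset] at hC
  obtain ⟨hCS, hCno⟩ := hC
  have hcard : 4 * d ≤ C.card := by
    by_contra hcon
    exact hCno (hT C hCS (by omega))
  have hdisC : ∀ a ∈ C, ∀ b ∈ C, a ≠ b → 2 < ‖a - b‖ := fun a ha b hb =>
    hdis a (hCS ha) b (hCS hb)
  have hopt : ∀ x : E, ∃ r p u D, x ∈ C → OptB (noR E) (C.erase x) d r p u D := by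
    intro x
    by_cases hx : x ∈ C
    · have : ∃ r p u D, OptB (noR E) (C.erase x) d r p u D := by
        apply exists_optB hd hE
        · rw [Finset.card_erase_of_mem hx]; omega
        · intro a ha b hb
          exact hdisC a (Finset.mem_of_mem_erase ha) b (Finset.mem_of_mem_erase hb)
        · by_contra hcon
          have := hmin (C.erase x) (by
            rw [Finset.mem_filter, Finset.mem_powerset]
            exact ⟨(Finset.erase_subset _ _).trans hCS, hcon⟩)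
          rw [Finset.card_erase_of_mem hx] at this
          omega
      obtain ⟨r, p, u, D, h⟩ := this
      exact ⟨r, p, u, D, fun _ => h⟩
    · exact ⟨0, 0, 0, ∅, fun h => absurd h hx⟩
  choose r p u0 B hO using hopt
  obtain ⟨ρ, κ0, m, hcst⟩ := exists_consts hd hE
  -- hits of the lines
  have hit0 : ∀ z ∈ C, ∀ c ∈ C, c ≠ z → ‖perp (u0 z) (c - p z)‖ ≤ 1 := fun z hz c hc hcz =>
    le_trans ((hO z hz).fe.near c (Finset.mem_erase.2 ⟨hcz, hc⟩)) (hO z hz).r1
  have hk0 : ∀ y ∈ C, ∀ z ∈ C, y ≠ z → κ0 < |⟪u0 y, u0 z⟫| := by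
    intro y hy z hz hyz
    refine big_kappa hcst (p := p y) (p' := p z) (G := (C.erase y).erase z) (hO y hy).fe.unit
      (hO z hz).fe.unit ?_ ?_ ?_ ?_
    · intro c hc
      rw [Finset.mem_erase, Finset.mem_erase] at hc
      exact hit0 y hy c hc.2.2 hc.2.1
    · intro c hc
      rw [Finset.mem_erase, Finset.mem_erase] at hc
      exact hit0 z hz c hc.2.2 hc.1
    · intro a ha b hb
      exact hdisC a (Finset.mem_of_mem_erase (Finset.mem_of_mem_erase ha)) b
        (Finset.mem_of_mem_erase (Finset.mem_of_mem_erase hb))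
    · rw [Finset.card_erase_of_mem (Finset.mem_erase.2 ⟨Ne.symm hyz, hz⟩),
        Finset.card_erase_of_mem hy]
      omega
  -- orientation
  obtain ⟨z0, hz0⟩ : C.Nonempty := Finset.card_pos.1 (by omega)
  have hor : ∀ z : E, ∃ u : E, z ∈ C → ((u = u0 z ∨ u = -u0 z) ∧ κ0 < ⟪u0 z0, u⟫) := by
    intro z
    by_cases hz : z ∈ C
    · have h1 : κ0 < |⟪u0 z0, u0 z⟫| := by
        by_cases hzz : z0 = z
        · rw [← hzz, real_inner_self_eq_norm_sq, (hO z0 hz0).fe.unit]
          have := hcst.ltone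
          norm_num
          exact this
        · exact hk0 z0 hz0 z hz hzz
      rcases abs_cases ⟪u0 z0, u0 z⟫ with h | h
      · exact ⟨u0 z, fun _ => ⟨Or.inl rfl, by rw [← h.1]; exact h1⟩⟩
      · exact ⟨-u0 z, fun _ => ⟨Or.inr rfl, by rw [inner_neg_right, ← h.1]; exact h1⟩⟩
    · exact ⟨0, fun h => absurd h hz⟩
  choose u hu using hor
  have unit : ∀ z ∈ C, ‖u z‖ = 1 := by
    intro z hz
    rcases (hu z hz).1 with h | h
    · rw [h]; exact (hO z hz).fe.unit
    · rw [h, norm_neg]; exact (hO z hz).fe.unit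
  have hperp : ∀ z ∈ C, ∀ x, perp (u z) x = perp (u0 z) x := by
    intro z hz x
    rcases (hu z hz).1 with h | h
    · rw [h]
    · rw [h, perp_neg]
  have near : ∀ z ∈ C, ∀ c ∈ C, c ≠ z → ‖perp (u z) (c - p z)‖ ≤ r z := fun z hz c hc hcz => by
    rw [hperp z hz]
    exact (hO z hz).fe.near c (Finset.mem_erase.2 ⟨hcz, hc⟩)
  have hit : ∀ z ∈ C, ∀ c ∈ C, c ≠ z → ‖perp (u z) (c - p z)‖ ≤ 1 := fun z hz c hc hcz =>
    (near z hz c hc hcz).trans (hO z hz).r1
  have rigid : ∀ z ∈ C, Rigid (B z) (r z) (p z) (u z) := by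
    intro z hz
    rcases (hu z hz).1 with h | h
    · rw [h]; exact (hO z hz).rigid
    · rw [h]; exact rigid_neg (hO z hz).rigid
  have hk : ∀ y ∈ C, ∀ z ∈ C, y ≠ z → κ0 < ⟪u y, u z⟫ := by
    intro y hy z hz hyz
    have h1 : κ0 < |⟪u y, u z⟫| := by
      have h2 := hk0 y hy z hz hyz
      rcases (hu y hy).1 with h | h <;> rcases (hu z hz).1 with h' | h' <;> rw [h, h']
      · exact h2
      · rw [inner_neg_right, abs_neg]; exact h2
      · rw [inner_neg_left, abs_neg]; exact h2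
      · rw [inner_neg_left, inner_neg_right, neg_neg]; exact h2
    have hhalf := hcst.half
    have h3 := three_units (unit y hy) (hO z0 hz0).fe.unit (unit z hz)
      (lt_of_le_of_lt hhalf (hu y hy).2) (lt_of_le_of_lt hhalf (hu z hz).2)
    rcases abs_cases ⟪u y, u z⟫ with h | h
    · rw [h.1] at h1; exact h1
    · rw [h.1] at h1; linarith
  -- totality
  have tot : ∀ z ∈ C, ∀ i ∈ C, ∀ j ∈ C, z ≠ i → z ≠ j → i ≠ j →
      ⟪u z, i⟫ < ⟪u z, j⟫ ∨ ⟪u z, j⟫ < ⟪u z, i⟫ := by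
    intro z hz i hi j hj h1 h2 hij
    have := hit_sep (unit z hz) le_rfl (hit z hz i hi h1.symm) (hit z hz j hj h2.symm)
      (hdisC i hi j hj hij)
    rw [inner_sub_right] at this
    exact lt_or_gt_of_ne fun h => this (by rw [h, sub_self])
  refine comb C d hd hcard (fun z i j => ⟪u z, i⟫ < ⟪u z, j⟫) (fun z i => lt_irrefl _)
    (fun z i j h => not_lt.2 h.le) tot ?_ r B ?_ ?_ ?_ ?_ ?_
  · -- general position
    intro y hy z hz hyz i hi j hj k hk' l hl h1 h2 h3 h4 h5 h6 h7 h8 l1 l2 l3 l4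
    obtain ⟨sn, hcl⟩ := close_of_kappa hcst (unit z hz) (unit y hy) (hk z hz y hy hyz.symm)
    have hmem : ∀ {c : E}, c ∈ (C.erase y).erase z → c ∈ C ∧ c ≠ y ∧ c ≠ z := by
      intro c hc
      rw [Finset.mem_erase, Finset.mem_erase] at hc
      exact ⟨hc.2.2, hc.2.1, hc.1⟩
    have hmem' : ∀ {c : E}, c ∈ C → y ≠ c → z ≠ c → c ∈ (C.erase y).erase z := by
      intro c hc g1 g2
      rw [Finset.mem_erase, Finset.mem_erase]
      exact ⟨g2.symm, g1.symm, hc⟩
    exact gp_pair hcst.triple (p := p z) (p' := p y) hcl (G := (C.erase y).erase z)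
      (fun c hc => hit z hz c (hmem hc).1 (hmem hc).2.2)
      (fun c hc => hit y hy c (hmem hc).1 (hmem hc).2.1)
      (fun a ha b hb => hdisC a (hmem ha).1 b (hmem hb).1)
      i (hmem' hi h1 h5) j (hmem' hj h2 h6) k (hmem' hk' h3 h7) l (hmem' hl h4 h8) l1 l2 l3 l4
  · intro x hx
    exact (hO x hx).sub.trans (Finset.erase_subset _ _)
  · intro x hx hxB
    have := (hO x hx).sub hxB
    rw [Finset.mem_erase] at this
    exact this.1 rfl
  · intro x hx
    exact (hO x hx).card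
  · -- f1
    intro x hx y hy hyx hyB hr
    by_contra hcon
    push Not at hcon
    have hBC : ∀ c ∈ B x, c ∈ C ∧ c ≠ x ∧ c ≠ y := by
      intro c hc
      have := (hO x hx).sub hc
      rw [Finset.mem_erase] at this
      exact ⟨this.2, this.1, fun h => hyB (h ▸ hc)⟩
    have hline := rigid x hx (p y) (u y) (unit y hy)
      (fun c hc => (near y hy c (hBC c hc).1 (hBC c hc).2.2).trans hr)
      (by
        intro a ha b hb hab
        have ta := tot x hx a (hBC a ha).1 b (hBC b hb).1 (hBC a ha).2.1.symm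
          (hBC b hb).2.1.symm hab
        have tb := tot y hy a (hBC a ha).1 b (hBC b hb).1 (hBC a ha).2.2.symm
          (hBC b hb).2.2.symm hab
        rw [inner_sub_right, inner_sub_right]
        rcases ta with g | g
        · have g2 : ⟪u y, a⟫ < ⟪u y, b⟫ := by
            rcases tb with g3 | g3
            · exact g3
            · exact absurd g3 (not_lt.2 (hcon a ha b hb g))
          exact mul_pos_of_neg_of_neg (by linarith) (by linarith)
        · have g2 : ⟪u y, b⟫ < ⟪u y, a⟫ := by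
            rcases tb with g3 | g3
            · exact absurd g3 (not_lt.2 (hcon b hb a ha g))
            · exact g3
          exact mul_pos (by linarith) (by linarith))
    obtain ⟨e1, e2⟩ := hline
    apply hCno
    refine ⟨p x, u x, unit x hx, ?_, fun _ _ _ _ h => absurd h id⟩
    intro c hc
    by_cases hcx : c = x
    · have h1 := hit y hy c hc (by rw [hcx]; exact hyx.symm)
      rw [e1, perp_eq_of_line_eq e2] at h1
      exact h1
    · exact hit x hx c hc hcx
  · -- f2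
    intro R hR
    have hnoR : ¬ ∃ p u, Fe R C 1 p u := by
      rintro ⟨q, w, h⟩
      exact hCno ⟨q, w, h.unit, h.near, fun _ _ _ _ h => absurd h id⟩
    obtain ⟨C', hC'C, hC'c, hC'no⟩ := hprime hd hE hdisC R hR hnoR
    refine ⟨C', hC'C, hC'c, ?_⟩
    intro z hz hzC'
    by_contra hcon
    push Not at hcon
    apply hC'no
    refine ⟨p z, u z, unit z hz, ?_, ?_⟩
    · intro c hc
      exact hit z hz c (hC'C hc) (fun h => hzC' (h ▸ hc))
    · intro a ha b hb hab
      exact hcon a ha b hb hab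

end Pool.Agent.D0H22.Danz
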